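import Pool.Agent.V11120.Fa04B

namespace Pool.Agent.V11120.Fa04

def DL : List ℕ := [1, 1, 2, 3, 5, 9, 13, 19, 29, 39, 53, 75, 97, 127, 173, 219, 281, 375, 469, 595, 785, 975, 1229, 1611, 1993, 2503, 3269, 4035, 5057, 6591, 8125, 10171, 13241, 16311, 20405, 26547, 32689, 40879]

theorem DL_spec : ∀ i, i < 38 → DL.getD i 0 = d3 (i + 1) + 1 := by decide

def dotp : List ℕ → List ℕ → ℕ
  | (a :: as), (b :: bs) => a * b + dotp as bs
  | _, _ => 0

theorem dotp_range : ∀ (k : ℕ) (A : List ℕ) (F : ℕ → ℕ),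
    dotp A ((List.range k).map F) = ∑ i ∈ Finset.range k, A.getD i 0 * F i := by
  intro k
  induction k with
  | zero => intro A F; cases A <;> simp [dotp]
  | succ k ih =>
    intro A F
    rw [Finset.sum_range_succ', List.range_succ_eq_map, List.map_cons, List.map_map]
    cases A with
    | nil => simp [dotp]
    | cons a as =>
      rw [dotp, ih as (F ∘ Nat.succ)]
      simp [add_comm]

def UL (n : ℕ) : List ℕ := (List.range (n + 1)).map (fun i => u (n - i))

theorem UL_succ (n : ℕ) (hn : n < 38) : UL (n + 1) = dotp DL (UL n) :: UL n := by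
  have h1 : u (n + 1) = dotp DL (UL n) := by
    rw [u_succ, UL, dotp_range]
    apply Finset.sum_congr rfl
    intro i hi
    rw [Finset.mem_range] at hi
    rw [DL_spec i (by omega)]
  rw [← h1]
  unfold UL
  rw [List.range_succ_eq_map (n := n + 1), List.map_cons, List.map_map]
  congr 1
  apply List.map_congr_left
  intro i _
  show u (n + 1 - (i + 1)) = u (n - i)
  congr 1
  omega

theorem UL_0 : UL 0 = [1] := by
  unfold UL
  simp [u]


theorem UL_1 : UL 1 = [1, 1] := by
  rw [show (1 : ℕ) = 0 + 1 from rfl, UL_succ 0 (by norm_num), UL_0]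
  rfl

theorem UL_2 : UL 2 = [2, 1, 1] := by
  rw [show (2 : ℕ) = 1 + 1 from rfl, UL_succ 1 (by norm_num), UL_1]
  rfl

theorem UL_3 : UL 3 = [5, 2, 1, 1] := by
  rw [show (3 : ℕ) = 2 + 1 from rfl, UL_succ 2 (by norm_num), UL_2]
  rfl

theorem UL_4 : UL 4 = [12, 5, 2, 1, 1] := by
  rw [show (4 : ℕ) = 3 + 1 from rfl, UL_succ 3 (by norm_num), UL_3]
  rfl

theorem UL_5 : UL 5 = [29, 12, 5, 2, 1, 1] := by
  rw [show (5 : ℕ) = 4 + 1 from rfl, UL_succ 4 (by norm_num), UL_4]
  rfl

theorem UL_6 : UL 6 = [71, 29, 12, 5, 2, 1, 1] := by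
  rw [show (6 : ℕ) = 5 + 1 from rfl, UL_succ 5 (by norm_num), UL_5]
  rfl

theorem UL_7 : UL 7 = [171, 71, 29, 12, 5, 2, 1, 1] := by
  rw [show (7 : ℕ) = 6 + 1 from rfl, UL_succ 6 (by norm_num), UL_6]
  rfl

theorem UL_8 : UL 8 = [411, 171, 71, 29, 12, 5, 2, 1, 1] := by
  rw [show (8 : ℕ) = 7 + 1 from rfl, UL_succ 7 (by norm_num), UL_7]
  rfl

theorem UL_9 : UL 9 = [990, 411, 171, 71, 29, 12, 5, 2, 1, 1] := by
  rw [show (9 : ℕ) = 8 + 1 from rfl, UL_succ 8 (by norm_num), UL_8]
  rfl

theorem UL_10 : UL 10 = [2380, 990, 411, 171, 71, 29, 12, 5, 2, 1, 1] := by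
  rw [show (10 : ℕ) = 9 + 1 from rfl, UL_succ 9 (by norm_num), UL_9]
  rfl

theorem UL_11 : UL 11 = [5722, 2380, 990, 411, 171, 71, 29, 12, 5, 2, 1, 1] := by
  rw [show (11 : ℕ) = 10 + 1 from rfl, UL_succ 10 (by norm_num), UL_10]
  rfl

theorem UL_12 : UL 12 = [13765, 5722, 2380, 990, 411, 171, 71, 29, 12, 5, 2, 1, 1] := by
  rw [show (12 : ℕ) = 11 + 1 from rfl, UL_succ 11 (by norm_num), UL_11]
  rfl

theorem UL_13 : UL 13 = [33106, 13765, 5722, 2380, 990, 411, 171, 71, 29, 12, 5, 2, 1, 1] := by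
  rw [show (13 : ℕ) = 12 + 1 from rfl, UL_succ 12 (by norm_num), UL_12]
  rfl

theorem UL_14 : UL 14 = [79624, 33106, 13765, 5722, 2380, 990, 411, 171, 71, 29, 12, 5, 2, 1, 1] := by
  rw [show (14 : ℕ) = 13 + 1 from rfl, UL_succ 13 (by norm_num), UL_13]
  rfl

theorem UL_15 : UL 15 = [191523, 79624, 33106, 13765, 5722, 2380, 990, 411, 171, 71, 29, 12, 5, 2, 1, 1] := by
  rw [show (15 : ℕ) = 14 + 1 from rfl, UL_succ 14 (by norm_num), UL_14]
  rfl

theorem UL_16 : UL 16 = [460659, 191523, 79624, 33106, 13765, 5722, 2380, 990, 411, 171, 71, 29, 12, 5, 2, 1, 1] := by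
  rw [show (16 : ℕ) = 15 + 1 from rfl, UL_succ 15 (by norm_num), UL_15]
  rfl

theorem UL_17 : UL 17 = [1107992, 460659, 191523, 79624, 33106, 13765, 5722, 2380, 990, 411, 171, 71, 29, 12, 5, 2, 1, 1] := by
  rw [show (17 : ℕ) = 16 + 1 from rfl, UL_succ 16 (by norm_num), UL_16]
  rfl

theorem UL_18 : UL 18 = [2665013, 1107992, 460659, 191523, 79624, 33106, 13765, 5722, 2380, 990, 411, 171, 71, 29, 12, 5, 2, 1, 1] := by
  rw [show (18 : ℕ) = 17 + 1 from rfl, UL_succ 17 (by norm_num), UL_17]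
  rfl

theorem UL_19 : UL 19 = [6410014, 2665013, 1107992, 460659, 191523, 79624, 33106, 13765, 5722, 2380, 990, 411, 171, 71, 29, 12, 5, 2, 1, 1] := by
  rw [show (19 : ℕ) = 18 + 1 from rfl, UL_succ 18 (by norm_num), UL_18]
  rfl

theorem UL_20 : UL 20 = [15417653, 6410014, 2665013, 1107992, 460659, 191523, 79624, 33106, 13765, 5722, 2380, 990, 411, 171, 71, 29, 12, 5, 2, 1, 1] := by
  rw [show (20 : ℕ) = 19 + 1 from rfl, UL_succ 19 (by norm_num), UL_19]
  rfl

theorem UL_21 : UL 21 = [37083313, 15417653, 6410014, 2665013, 1107992, 460659, 191523, 79624, 33106, 13765, 5722, 2380, 990, 411, 171, 71, 29, 12, 5, 2, 1, 1] := by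
  rw [show (21 : ℕ) = 20 + 1 from rfl, UL_succ 20 (by norm_num), UL_20]
  rfl

theorem UL_22 : UL 22 = [89194557, 37083313, 15417653, 6410014, 2665013, 1107992, 460659, 191523, 79624, 33106, 13765, 5722, 2380, 990, 411, 171, 71, 29, 12, 5, 2, 1, 1] := by
  rw [show (22 : ℕ) = 21 + 1 from rfl, UL_succ 21 (by norm_num), UL_21]
  rfl

theorem UL_23 : UL 23 = [214534985, 89194557, 37083313, 15417653, 6410014, 2665013, 1107992, 460659, 191523, 79624, 33106, 13765, 5722, 2380, 990, 411, 171, 71, 29, 12, 5, 2, 1, 1] := by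
  rw [show (23 : ℕ) = 22 + 1 from rfl, UL_succ 22 (by norm_num), UL_22]
  rfl

theorem UL_24 : UL 24 = [516009932, 214534985, 89194557, 37083313, 15417653, 6410014, 2665013, 1107992, 460659, 191523, 79624, 33106, 13765, 5722, 2380, 990, 411, 171, 71, 29, 12, 5, 2, 1, 1] := by
  rw [show (24 : ℕ) = 23 + 1 from rfl, UL_succ 23 (by norm_num), UL_23]
  rfl

theorem UL_25 : UL 25 = [1241131884, 516009932, 214534985, 89194557, 37083313, 15417653, 6410014, 2665013, 1107992, 460659, 191523, 79624, 33106, 13765, 5722, 2380, 990, 411, 171, 71, 29, 12, 5, 2, 1, 1] := by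
  rw [show (25 : ℕ) = 24 + 1 from rfl, UL_succ 24 (by norm_num), UL_24]
  rfl

theorem UL_26 : UL 26 = [2985229966, 1241131884, 516009932, 214534985, 89194557, 37083313, 15417653, 6410014, 2665013, 1107992, 460659, 191523, 79624, 33106, 13765, 5722, 2380, 990, 411, 171, 71, 29, 12, 5, 2, 1, 1] := by
  rw [show (26 : ℕ) = 25 + 1 from rfl, UL_succ 25 (by norm_num), UL_25]
  rfl

theorem UL_27 : UL 27 = [7180218801, 2985229966, 1241131884, 516009932, 214534985, 89194557, 37083313, 15417653, 6410014, 2665013, 1107992, 460659, 191523, 79624, 33106, 13765, 5722, 2380, 990, 411, 171, 71, 29, 12, 5, 2, 1, 1] := by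
  rw [show (27 : ℕ) = 26 + 1 from rfl, UL_succ 26 (by norm_num), UL_26]
  rfl

theorem UL_28 : UL 28 = [17270207456, 7180218801, 2985229966, 1241131884, 516009932, 214534985, 89194557, 37083313, 15417653, 6410014, 2665013, 1107992, 460659, 191523, 79624, 33106, 13765, 5722, 2380, 990, 411, 171, 71, 29, 12, 5, 2, 1, 1] := by
  rw [show (28 : ℕ) = 27 + 1 from rfl, UL_succ 27 (by norm_num), UL_27]
  rfl

theorem UL_29 : UL 29 = [41539133020, 17270207456, 7180218801, 2985229966, 1241131884, 516009932, 214534985, 89194557, 37083313, 15417653, 6410014, 2665013, 1107992, 460659, 191523, 79624, 33106, 13765, 5722, 2380, 990, 411, 171, 71, 29, 12, 5, 2, 1, 1] := by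
  rw [show (29 : ℕ) = 28 + 1 from rfl, UL_succ 28 (by norm_num), UL_28]
  rfl

theorem UL_30 : UL 30 = [99911920175, 41539133020, 17270207456, 7180218801, 2985229966, 1241131884, 516009932, 214534985, 89194557, 37083313, 15417653, 6410014, 2665013, 1107992, 460659, 191523, 79624, 33106, 13765, 5722, 2380, 990, 411, 171, 71, 29, 12, 5, 2, 1, 1] := by
  rw [show (30 : ℕ) = 29 + 1 from rfl, UL_succ 29 (by norm_num), UL_29]
  rfl

theorem UL_31 : UL 31 = [240312953877, 99911920175, 41539133020, 17270207456, 7180218801, 2985229966, 1241131884, 516009932, 214534985, 89194557, 37083313, 15417653, 6410014, 2665013, 1107992, 460659, 191523, 79624, 33106, 13765, 5722, 2380, 990, 411, 171, 71, 29, 12, 5, 2, 1, 1] := by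
  rw [show (31 : ℕ) = 30 + 1 from rfl, UL_succ 30 (by norm_num), UL_30]
  rfl

theorem UL_32 : UL 32 = [578012269610, 240312953877, 99911920175, 41539133020, 17270207456, 7180218801, 2985229966, 1241131884, 516009932, 214534985, 89194557, 37083313, 15417653, 6410014, 2665013, 1107992, 460659, 191523, 79624, 33106, 13765, 5722, 2380, 990, 411, 171, 71, 29, 12, 5, 2, 1, 1] := by
  rw [show (32 : ℕ) = 31 + 1 from rfl, UL_succ 31 (by norm_num), UL_31]
  rfl

theorem UL_33 : UL 33 = [1390262900761, 578012269610, 240312953877, 99911920175, 41539133020, 17270207456, 7180218801, 2985229966, 1241131884, 516009932, 214534985, 89194557, 37083313, 15417653, 6410014, 2665013, 1107992, 460659, 191523, 79624, 33106, 13765, 5722, 2380, 990, 411, 171, 71, 29, 12, 5, 2, 1, 1] := by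
  rw [show (33 : ℕ) = 32 + 1 from rfl, UL_succ 32 (by norm_num), UL_32]
  rfl

theorem UL_34 : UL 34 = [3343927168744, 1390262900761, 578012269610, 240312953877, 99911920175, 41539133020, 17270207456, 7180218801, 2985229966, 1241131884, 516009932, 214534985, 89194557, 37083313, 15417653, 6410014, 2665013, 1107992, 460659, 191523, 79624, 33106, 13765, 5722, 2380, 990, 411, 171, 71, 29, 12, 5, 2, 1, 1] := by
  rw [show (34 : ℕ) = 33 + 1 from rfl, UL_succ 33 (by norm_num), UL_33]
  rfl

theorem UL_35 : UL 35 = [8042974391153, 3343927168744, 1390262900761, 578012269610, 240312953877, 99911920175, 41539133020, 17270207456, 7180218801, 2985229966, 1241131884, 516009932, 214534985, 89194557, 37083313, 15417653, 6410014, 2665013, 1107992, 460659, 191523, 79624, 33106, 13765, 5722, 2380, 990, 411, 171, 71, 29, 12, 5, 2, 1, 1] := by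
  rw [show (35 : ℕ) = 34 + 1 from rfl, UL_succ 34 (by norm_num), UL_34]
  rfl

theorem UL_36 : UL 36 = [19345348689979, 8042974391153, 3343927168744, 1390262900761, 578012269610, 240312953877, 99911920175, 41539133020, 17270207456, 7180218801, 2985229966, 1241131884, 516009932, 214534985, 89194557, 37083313, 15417653, 6410014, 2665013, 1107992, 460659, 191523, 79624, 33106, 13765, 5722, 2380, 990, 411, 171, 71, 29, 12, 5, 2, 1, 1] := by
  rw [show (36 : ℕ) = 35 + 1 from rfl, UL_succ 35 (by norm_num), UL_35]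
  rfl

theorem UL_37 : UL 37 = [46530362737347, 19345348689979, 8042974391153, 3343927168744, 1390262900761, 578012269610, 240312953877, 99911920175, 41539133020, 17270207456, 7180218801, 2985229966, 1241131884, 516009932, 214534985, 89194557, 37083313, 15417653, 6410014, 2665013, 1107992, 460659, 191523, 79624, 33106, 13765, 5722, 2380, 990, 411, 171, 71, 29, 12, 5, 2, 1, 1] := by
  rw [show (37 : ℕ) = 36 + 1 from rfl, UL_succ 36 (by norm_num), UL_36]
  rfl

theorem UL_38 : UL 38 = [111917065496883, 46530362737347, 19345348689979, 8042974391153, 3343927168744, 1390262900761, 578012269610, 240312953877, 99911920175, 41539133020, 17270207456, 7180218801, 2985229966, 1241131884, 516009932, 214534985, 89194557, 37083313, 15417653, 6410014, 2665013, 1107992, 460659, 191523, 79624, 33106, 13765, 5722, 2380, 990, 411, 171, 71, 29, 12, 5, 2, 1, 1] := by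
  rw [show (38 : ℕ) = 37 + 1 from rfl, UL_succ 37 (by norm_num), UL_37]
  rfl

theorem u_38 : u 38 = 111917065496883 := by
  have h := UL_38
  have h2 : (UL 38).head? = some (u 38) := by
    unfold UL
    rw [List.range_succ_eq_map (n := 38), List.map_cons, List.head?_cons, Nat.sub_zero]
  rw [h] at h2
  exact (Option.some.inj h2).symm

end Pool.Agent.V11120.Fa04
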