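import Mathlib

/-!
# Upper bound for 231-avoiding permutations with cycles of length at most three
-/

namespace Pool.Agent.V11120.Fa04

/-- `f`, restricted to `[0,n)`, is a 231-avoiding permutation with cycles of length at most 3. -/
structure G231 (n : ℕ) (f : ℕ → ℕ) : Prop where
  lt : ∀ i, i < n → f i < n
  inj : ∀ i j, i < n → j < n → f i = f j → i = j
  cyc : ∀ i, i < n → f (f i) = i ∨ f (f (f i)) = i
  av : ∀ i j k, i < j → j < k → k < n → f i < f j → f k < f i → False

theorem G231.surj {n : ℕ} {f : ℕ → ℕ} (h : G231 n f) (v : ℕ) (hv : v < n) :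
    ∃ i, i < n ∧ f i = v := by
  rcases h.cyc v hv with h1 | h1
  · exact ⟨f v, h.lt _ hv, h1⟩
  · exact ⟨f (f v), h.lt _ (h.lt _ hv), h1⟩

/-- the decreasing permutation -/
def dec (k : ℕ) : ℕ → ℕ := fun i => k - 1 - i

/-- direct sum -/
def comb (s : ℕ) (b r : ℕ → ℕ) : ℕ → ℕ := fun i => if i < s then b i else r (i - s) + s

theorem dec_unique {k : ℕ} {f : ℕ → ℕ} (h1 : ∀ i, i < k → f i < k)
    (h2 : ∀ i j, i < j → j < k → f j < f i) : ∀ i, i < k → f i = dec k i := by
  have hA : ∀ i, i < k → f i + i < k := by
    intro i
    induction i with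
    | zero => intro h; have := h1 0 h; omega
    | succ i ih =>
      intro h
      have := ih (by omega)
      have h3 := h2 i (i+1) (by omega) h
      omega
  have hB : ∀ t i, i + t + 1 = k → t ≤ f i := by
    intro t
    induction t with
    | zero => intro i _; omega
    | succ t ih =>
      intro i h
      have := ih (i+1) (by omega)
      have h3 := h2 i (i+1) (by omega) (by omega)
      omega
  intro i hi
  have a := hA i hi
  have b := hB (k - 1 - i) i (by omega)
  unfold dec
  omega

/-- first block -/
theorem block_lt {n : ℕ} {f : ℕ → ℕ} (h : G231 n f) (hn : 0 < n) :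
    ∀ i, i ≤ f 0 → f i ≤ f 0 := by
  intro i hi
  have h0 : f 0 < n := h.lt 0 hn
  by_contra hc
  push Not at hc
  have hi0 : 0 < i := by
    rcases Nat.eq_zero_or_pos i with h1 | h1
    · subst h1; omega
    · exact h1
  -- all y > i are large
  have hlarge : ∀ y, i ≤ y → y < n → f 0 < f y := by
    intro y hy hyn
    rcases Nat.eq_or_lt_of_le hy with h1 | h1
    · subst h1; exact hc
    · by_contra h2
      push Not at h2
      have h3 : f y ≠ f 0 := fun he => by
        have := h.inj y 0 hyn hn he
        omega
      exact h.av 0 i y hi0 h1 hyn hc (by omega)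
  -- small values have preimages in [1,i)
  have hex : ∀ v, ∃ x, v < f 0 → (x < n ∧ f x = v) := by
    intro v
    by_cases hv : v < f 0
    · obtain ⟨x, hx, hx2⟩ := h.surj v (by omega)
      exact ⟨x, fun _ => ⟨hx, hx2⟩⟩
    · exact ⟨0, fun hh => absurd hh hv⟩
  choose g hg using hex
  have hcard : (Finset.range (f 0)).card ≤ (Finset.Ico 1 i).card := by
    apply Finset.card_le_card_of_injOn g
    · intro v hv
      have hv' : v < f 0 := by simpa using hv
      obtain ⟨h1, h2⟩ := hg v hv'
      have h3 : g v ≠ 0 := fun he => by rw [he] at h2; omega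
      have h4 : g v < i := by
        by_contra h5
        push Not at h5
        have := hlarge (g v) h5 h1
        omega
      simp only [Finset.coe_Ico, Set.mem_Ico]
      omega
    · intro v hv w hw hvw
      have hv' : v < f 0 := by simpa using hv
      have hw' : w < f 0 := by simpa using hw
      have h1 := (hg v hv').2
      have h2 := (hg w hw').2
      rw [← h1, ← h2, hvw]
  simp only [Finset.card_range, Nat.card_Ico] at hcard
  omega

theorem block_ge {n : ℕ} {f : ℕ → ℕ} (h : G231 n f) (hn : 0 < n) :
    ∀ i, f 0 < i → i < n → f 0 < f i := by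
  intro i hi hin
  by_contra hc
  push Not at hc
  have hne : f i ≠ f 0 := fun he => by
    have := h.inj i 0 hin hn he
    omega
  -- all positions 1..i are small
  have hcard : (Finset.Icc 1 i).card ≤ (Finset.range (f 0)).card := by
    apply Finset.card_le_card_of_injOn f
    · intro x hx
      have hx' : 1 ≤ x ∧ x ≤ i := by simpa using hx
      simp only [Finset.coe_range, Set.mem_Iio]
      by_contra h1
      push Not at h1
      have h2 : f x ≠ f 0 := fun he => by
        have := h.inj x 0 (by omega) hn he
        omega
      rcases Nat.eq_or_lt_of_le hx'.2 with h3 | h3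
      · subst h3; omega
      · exact h.av 0 x i (by omega) h3 hin (by omega) (by omega)
    · intro x hx y hy hxy
      have hx' : 1 ≤ x ∧ x ≤ i := by simpa using hx
      have hy' : 1 ≤ y ∧ y ≤ i := by simpa using hy
      exact h.inj x y (by omega) (by omega) hxy
  simp only [Finset.card_range, Nat.card_Icc] at hcard
  omega

theorem G231.take {n : ℕ} {f : ℕ → ℕ} (h : G231 n f) (s : ℕ) (hs : s ≤ n)
    (hb : ∀ i, i < s → f i < s) : G231 s f where
  lt := hb
  inj := fun i j hi hj e => h.inj i j (by omega) (by omega) e
  cyc := fun i hi => h.cyc i (by omega)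
  av := fun i j k hij hjk hk a b => h.av i j k hij hjk (by omega) a b

theorem G231.drop {n : ℕ} {f : ℕ → ℕ} (h : G231 n f) (s : ℕ) (hs : s ≤ n)
    (hb : ∀ i, s ≤ i → i < n → s ≤ f i) : G231 (n - s) (fun i => f (i + s) - s) where
  lt := fun i hi => by
    have h1 := h.lt (i + s) (by omega)
    have h2 := hb (i+s) (by omega) (by omega)
    show f (i + s) - s < n - s
    omega
  inj := fun i j hi hj e => by
    have h2 := hb (i+s) (by omega) (by omega)
    have h3 := hb (j+s) (by omega) (by omega)
    have e' : f (i + s) - s = f (j + s) - s := e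
    have := h.inj (i+s) (j+s) (by omega) (by omega) (by omega)
    omega
  cyc := fun i hi => by
    show f (f (i + s) - s + s) - s = i ∨ f (f (f (i + s) - s + s) - s + s) - s = i
    have h1 := h.lt (i + s) (by omega)
    have h2 := hb (i+s) (by omega) (by omega)
    have e1 : f (i + s) - s + s = f (i + s) := by omega
    rw [e1]
    have h3 := h.lt _ h1
    have h4 := hb _ h2 h1
    have e2 : f (f (i + s)) - s + s = f (f (i + s)) := by omega
    rw [e2]
    rcases h.cyc (i+s) (by omega) with h5 | h5
    · left; omega
    · right; omega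
  av := fun i j k hij hjk hk a b => by
    have a' : f (i + s) - s < f (j + s) - s := a
    have b' : f (k + s) - s < f (i + s) - s := b
    have h2 := hb (i+s) (by omega) (by omega)
    have h3 := hb (k+s) (by omega) (by omega)
    exact h.av (i+s) (j+s) (k+s) (by omega) (by omega) (by omega) (by omega) (by omega)

end Pool.Agent.V11120.Fa04
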