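import Pool.Agent.V11120.Fa04A

/-!
# Blocks of 231-avoiding permutations with cycles of length at most three
-/

namespace Pool.Agent.V11120.Fa04

def up (p x : ℕ) : ℕ := if x < p then x + 1 else x + 2
def dn (p v : ℕ) : ℕ := if v ≤ p then v - 1 else v - 2

/-- insertion of the 3-cycle `0 ↦ m-1 ↦ p+1 ↦ 0` -/
def ins (m p : ℕ) (σ : ℕ → ℕ) : ℕ → ℕ := fun i =>
  if i = 0 then m - 1 else if i = m - 1 then p + 1 else if i = p + 1 then 0
  else up p (σ (dn p i))

theorem up_dn {p y : ℕ} (h0 : y ≠ 0) (h1 : y ≠ p + 1) : up p (dn p y) = y := by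
  unfold up dn; split_ifs <;> omega

theorem dn_up {p x : ℕ} : dn p (up p x) = x := by
  unfold up dn; split_ifs <;> omega

theorem ins_congr {m p : ℕ} {σ τ : ℕ → ℕ} (hp : p ≤ m) (h : ∀ i, i < m → σ i = τ i) :
    ∀ i, i < m + 3 → ins (m + 3) p σ i = ins (m + 3) p τ i := by
  intro i hi
  unfold ins
  split_ifs with h1 h2 h3
  · rfl
  · rfl
  · rfl
  · rw [h]
    unfold dn; split_ifs <;> omega

structure C3 (m : ℕ) (f : ℕ → ℕ) (p : ℕ) : Prop where
  g : G231 (m + 3) f
  h0 : f 0 = m + 2
  h1 : f (m + 2) = p + 1
  h2 : f (p + 1) = 0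
  hp : p ≤ m

def rem (f : ℕ → ℕ) (p : ℕ) : ℕ → ℕ := fun i => dn p (f (up p i))

theorem C3.up_mem {m p : ℕ} {f : ℕ → ℕ} (h : C3 m f p) {x : ℕ} (hx : x < m) :
    up p x < m + 2 ∧ up p x ≠ 0 ∧ up p x ≠ p + 1 := by
  have := h.hp
  unfold up; split_ifs <;> omega

theorem C3.f_mem {m p : ℕ} {f : ℕ → ℕ} (h : C3 m f p) {y : ℕ} (hy : y < m + 2)
    (hy0 : y ≠ 0) (hy1 : y ≠ p + 1) : f y < m + 2 ∧ f y ≠ 0 ∧ f y ≠ p + 1 := by
  have hp := h.hp
  have hl := h.g.lt y (by omega)
  refine ⟨?_, ?_, ?_⟩
  · have : f y ≠ m + 2 := fun e => by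
      have := h.g.inj y 0 (by omega) (by omega) (by rw [e, h.h0])
      omega
    omega
  · intro e
    have := h.g.inj y (p+1) (by omega) (by omega) (by rw [e, h.h2])
    omega
  · intro e
    have := h.g.inj y (m+2) (by omega) (by omega) (by rw [e, h.h1])
    omega

theorem C3.up_rem {m p : ℕ} {f : ℕ → ℕ} (h : C3 m f p) {x : ℕ} (hx : x < m) :
    up p (rem f p x) = f (up p x) := by
  obtain ⟨a, b, c⟩ := h.up_mem hx
  obtain ⟨a', b', c'⟩ := h.f_mem a b c
  exact up_dn b' c'

theorem C3.rem_lt {m p : ℕ} {f : ℕ → ℕ} (h : C3 m f p) {x : ℕ} (hx : x < m) :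
    rem f p x < m := by
  obtain ⟨a, b, c⟩ := h.up_mem hx
  obtain ⟨a', b', c'⟩ := h.f_mem a b c
  have hp := h.hp
  show dn p (f (up p x)) < m
  unfold dn; split_ifs <;> omega

theorem up_lt {p x y : ℕ} (h : x < y) : up p x < up p y := by
  unfold up; split_ifs <;> omega

theorem up_inj {p x y : ℕ} (h : up p x = up p y) : x = y := by
  rcases lt_trichotomy x y with h1 | h1 | h1
  · have := up_lt (p := p) h1; omega
  · exact h1
  · have := up_lt (p := p) h1; omega

theorem C3.rem_good {m p : ℕ} {f : ℕ → ℕ} (h : C3 m f p) : G231 m (rem f p) where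
  lt := fun i hi => h.rem_lt hi
  inj := fun i j hi hj e => by
    have e1 := h.up_rem hi
    have e2 := h.up_rem hj
    rw [e] at e1
    have a := (h.up_mem hi).1
    have b := (h.up_mem hj).1
    have := h.g.inj (up p i) (up p j) (by omega) (by omega) (by rw [← e1, ← e2])
    exact up_inj this
  cyc := fun i hi => by
    have a := (h.up_mem hi).1
    have e1 := h.up_rem hi
    have hl1 := h.rem_lt hi
    have e2 := h.up_rem hl1
    have hl2 := h.rem_lt hl1
    have e3 := h.up_rem hl2
    rw [e1] at e2
    rw [e2] at e3
    rcases h.g.cyc (up p i) (by omega) with h5 | h5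
    · left
      rw [h5] at e2
      exact up_inj e2
    · right
      rw [h5] at e3
      exact up_inj e3
  av := fun i j k hij hjk hk ha hb => by
    have e1 := h.up_rem (x := i) (by omega)
    have e2 := h.up_rem (x := j) (by omega)
    have e3 := h.up_rem (x := k) hk
    have l1 := up_lt (p := p) ha
    have l2 := up_lt (p := p) hb
    rw [e1, e2] at l1
    rw [e3, e1] at l2
    have a := (h.up_mem hk).1
    exact h.g.av (up p i) (up p j) (up p k) (up_lt hij) (up_lt hjk) (by omega) l1 l2

theorem C3.recon {m p : ℕ} {f : ℕ → ℕ} (h : C3 m f p) :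
    ∀ i, i < m + 3 → f i = ins (m + 3) p (rem f p) i := by
  intro i hi
  have hp := h.hp
  unfold ins
  split_ifs with h1 h2 h3
  · rw [h1, h.h0]; omega
  · rw [h2]; exact h.h1
  · rw [h3]; exact h.h2
  · have hd : dn p i < m := by unfold dn; split_ifs <;> omega
    rw [h.up_rem hd, up_dn h1 h3]

/-- the first `p` entries are decreasing -/
theorem C3.D {m p : ℕ} {f : ℕ → ℕ} (h : C3 m f p) :
    ∀ x y, x < y → y < p → rem f p y < rem f p x := by
  intro x y hxy hyp
  have hp := h.hp
  by_contra hc
  push Not at hc
  have hne : rem f p x ≠ rem f p y := fun e => by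
    have := h.rem_good.inj x y (by omega) (by omega) e
    omega
  have hlt : rem f p x < rem f p y := by omega
  have l1 := up_lt (p := p) hlt
  rw [h.up_rem (x := x) (by omega), h.up_rem (x := y) (by omega)] at l1
  have ux : up p x = x + 1 := by unfold up; split_ifs <;> omega
  have uy : up p y = y + 1 := by unfold up; split_ifs <;> omega
  obtain ⟨a, b, c⟩ := h.up_mem (x := x) (by omega)
  obtain ⟨a', b', c'⟩ := h.f_mem a b c
  rw [ux] at l1 b'
  rw [uy] at l1
  exact h.g.av (x+1) (y+1) (p+1) (by omega) (by omega) (by omega) l1 (by rw [h.h2]; omega)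

/-- the entries at least `p` are decreasing -/
theorem C3.U {m p : ℕ} {f : ℕ → ℕ} (h : C3 m f p) :
    ∀ x y, x < y → y < m → p ≤ rem f p x → p ≤ rem f p y → rem f p y < rem f p x := by
  intro x y hxy hym h1 h2
  have hp := h.hp
  by_contra hc
  push Not at hc
  have hne : rem f p x ≠ rem f p y := fun e => by
    have := h.rem_good.inj x y (by omega) (by omega) e
    omega
  have hlt : rem f p x < rem f p y := by omega
  have l1 := up_lt (p := p) hlt
  have ux : up p (rem f p x) = rem f p x + 2 := by unfold up; split_ifs <;> omega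
  rw [h.up_rem (x := x) (by omega), h.up_rem (x := y) (by omega)] at l1
  rw [h.up_rem (x := x) (by omega)] at ux
  obtain ⟨a, b, c⟩ := h.up_mem (x := y) (by omega)
  exact h.g.av (up p x) (up p y) (m+2) (up_lt hxy) (by omega) (by omega) l1
    (by rw [h.h1]; omega)

def d3 : ℕ → ℕ
  | 0 => 0
  | 1 => 0
  | 2 => 0
  | (m+3) => (m + 1) + (m - 1) + 2 * d3 m

def blk3 : ℕ → List (ℕ × (ℕ → ℕ))
  | 0 => []
  | 1 => []
  | 2 => []
  | (m+3) =>
    (List.range (m + 1)).map (fun p => (p, ins (m + 3) p (comb p (dec p) (dec (m - p)))))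
    ++ ((List.range (m - 1)).map (fun q => (q + 1, ins (m + 3) (q + 1) (dec m)))
    ++ ((blk3 m).map (fun c => (c.1 + 1, ins (m + 3) (c.1 + 1) c.2))
    ++ (blk3 m).map (fun c => (c.1 + 2, ins (m + 3) (c.1 + 2) c.2))))

theorem blk3_length : ∀ m, (blk3 m).length = d3 m
  | 0 => rfl
  | 1 => rfl
  | 2 => rfl
  | (m+3) => by
    simp only [blk3, d3, List.length_append, List.length_map, List.length_range, blk3_length m]
    omega

theorem full_dec {m : ℕ} {f : ℕ → ℕ} (h : G231 m f) (hm : 0 < m) (h0 : f (m - 1) = 0) :
    ∀ i, i < m → f i = dec m i := by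
  apply dec_unique h.lt
  intro i j hij hj
  rcases Nat.lt_or_ge j (m - 1) with h1 | h1
  · by_contra hc
    push Not at hc
    have hne : f i ≠ f j := fun e => by
      have := h.inj i j (by omega) (by omega) e
      omega
    have hz : f i ≠ 0 := fun e => by
      have := h.inj i (m-1) (by omega) (by omega) (by rw [e, h0])
      omega
    exact h.av i j (m-1) hij h1 (by omega) (by omega) (by rw [h0]; omega)
  · have : j = m - 1 := by omega
    subst this
    have hz : f i ≠ 0 := fun e => by
      have := h.inj i (m-1) (by omega) (by omega) (by rw [e, h0])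
      omega
    rw [h0]; omega

theorem comb_zero_left {k : ℕ} (i : ℕ) : comb 0 (dec 0) (dec k) i = dec k i := by
  unfold comb; simp

theorem complete3 : ∀ m f p, C3 m f p → ∃ c ∈ blk3 (m + 3), c.1 = p ∧
    ∀ i, i < m + 3 → f i = c.2 i := by
  intro m
  induction m using Nat.strong_induction_on with
  | _ m ih =>
  intro f p h
  have hp := h.hp
  have hr := h.rem_good
  -- it suffices to identify `rem f p`
  have key1 : (∀ i, i < m → rem f p i = comb p (dec p) (dec (m - p)) i) →
      ∃ c ∈ blk3 (m + 3), c.1 = p ∧ ∀ i, i < m + 3 → f i = c.2 i := by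
    intro hh
    refine ⟨(p, ins (m + 3) p (comb p (dec p) (dec (m - p)))), ?_, rfl, ?_⟩
    · rw [blk3]
      apply List.mem_append_left
      rw [List.mem_map]
      exact ⟨p, by simpa using (by omega), rfl⟩
    · intro i hi
      rw [h.recon i hi]
      exact ins_congr hp hh i hi
  rcases Nat.eq_zero_or_pos m with hm | hm
  · exact key1 (fun i hi => by omega)
  rcases Nat.eq_zero_or_pos p with hp0 | hp0
  · apply key1
    intro i hi
    rw [hp0, Nat.sub_zero]
    rw [comb_zero_left]
    have := dec_unique (k := m) (f := rem f p) hr.lt (fun x y hxy hy => h.U x y hxy hy (by omega) (by omega))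
    rw [hp0] at this
    exact this i hi
  have hs : rem f p 0 < m := hr.lt 0 hm
  have bl := block_lt hr hm
  have bg := block_ge hr hm
  rcases Nat.lt_or_ge (rem f p 0 + 1) m with hc | hc
  · -- rest nonempty
    have hb := bg (rem f p 0 + 1) (by omega) hc
    have hsp : rem f p 0 + 1 = p := by
      rcases lt_trichotomy (rem f p 0 + 1) p with h1 | h1 | h1
      · have := h.D 0 (rem f p 0 + 1) (by omega) h1
        omega
      · exact h1
      · have := h.U 0 (rem f p 0 + 1) (by omega) hc (by omega) (by omega)
        omega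
    apply key1
    have hA : ∀ i, i < p → rem f p i = dec p i := by
      apply dec_unique
      · intro i hi
        have := bl i (by omega)
        omega
      · exact h.D
    have hB : ∀ i, i < m - p → rem f p (i + p) - p = dec (m - p) i := by
      apply dec_unique (f := fun i => rem f p (i + p) - p)
      · intro i hi
        have := hr.lt (i + p) (by omega)
        have := bg (i + p) (by omega) (by omega)
        show rem f p (i + p) - p < m - p
        omega
      · intro i j hij hj
        have a := bg (i + p) (by omega) (by omega)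
        have b := bg (j + p) (by omega) (by omega)
        have := h.U (i + p) (j + p) (by omega) (by omega) (by omega) (by omega)
        show rem f p (j + p) - p < rem f p (i + p) - p
        omega
    intro i hi
    unfold comb
    split_ifs with h1
    · exact hA i h1
    · have h2 := hB (i - p) (by omega)
      have e1 : i - p + p = i := by omega
      rw [e1] at h2
      have a := bg i (by omega) (by omega)
      omega
  · have hs' : rem f p 0 = m - 1 := by omega
    by_cases hz : rem f p (m - 1) = 0
    · have hdec := full_dec hr hm hz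
      rcases Nat.eq_or_lt_of_le hp with hpm | hpm
      · apply key1
        intro i hi
        unfold comb
        rw [if_pos (by omega), hpm]
        have := hdec i hi
        rw [hpm] at this
        exact this
      · refine ⟨(p - 1 + 1, ins (m + 3) (p - 1 + 1) (dec m)), ?_, by show p - 1 + 1 = p; omega, ?_⟩
        · rw [blk3]
          apply List.mem_append_right
          apply List.mem_append_left
          rw [List.mem_map]
          exact ⟨p - 1, by rw [List.mem_range]; omega, rfl⟩
        · intro i hi
          rw [h.recon i hi]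
          have e1 : p - 1 + 1 = p := by omega
          show ins (m + 3) p (rem f p) i = ins (m + 3) (p - 1 + 1) (dec m) i
          rw [e1]
          exact ins_congr hp hdec i hi
    · -- three cycle type
      have hcyc0 := hr.cyc 0 hm
      rw [hs'] at hcyc0
      have hj : rem f p (rem f p (m - 1)) = 0 := by
        rcases hcyc0 with h1 | h1
        · exact absurd h1 hz
        · exact h1
      have hjlt : rem f p (m - 1) < m := hr.lt _ (by omega)
      have hjne : rem f p (m - 1) ≠ m - 1 := fun e => by
        have := hr.inj (m-1) 0 (by omega) hm (by rw [e, hs'])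
        rw [this] at hz
        rw [this] at e
        omega
      have hm3 : 3 ≤ m := by omega
      obtain ⟨m', rfl⟩ : ∃ m', m = m' + 3 := ⟨m - 3, by omega⟩
      have e2 : m' + 3 - 1 = m' + 2 := by omega
      rw [e2] at hs' hz hj hjlt hjne
      have hc3 : C3 m' (rem f p) (rem f p (m' + 2) - 1) := {
        g := hr
        h0 := hs'
        h1 := by omega
        h2 := by
          have : rem f p (m' + 2) - 1 + 1 = rem f p (m' + 2) := by omega
          rw [this]; exact hj
        hp := by omega }
      obtain ⟨c, hc, hc1, hc2⟩ := ih m' (by omega) _ _ hc3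
      have hq1 : p ≤ rem f p (m' + 2) + 1 := by
        by_contra hcon
        push Not at hcon
        have h5 := h.D (rem f p (m' + 2)) (rem f p (m' + 2) + 1) (by omega) (by omega)
        omega
      have hq2 : rem f p (m' + 2) ≤ p := by
        by_contra hcon
        push Not at hcon
        obtain ⟨x, hx, hx2⟩ := hr.surj p (by omega)
        have hxne : x ≠ m' + 2 := fun e => by rw [e] at hx2; omega
        have h5 := h.U x (m' + 2) (by omega) (by omega) (by omega) (by omega)
        omega
      rcases Nat.eq_or_lt_of_le hq2 with hq3 | hq3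
      · refine ⟨(c.1 + 1, ins (m' + 3 + 3) (c.1 + 1) c.2), ?_, ?_, ?_⟩
        · rw [blk3]
          apply List.mem_append_right
          apply List.mem_append_right
          apply List.mem_append_left
          rw [List.mem_map]
          exact ⟨c, hc, rfl⟩
        · show c.1 + 1 = p
          omega
        · intro i hi
          rw [h.recon i hi]
          have e1 : c.1 + 1 = p := by omega
          show ins (m' + 3 + 3) p (rem f p) i = ins (m' + 3 + 3) (c.1 + 1) c.2 i
          rw [e1]
          exact ins_congr hp hc2 i hi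
      · refine ⟨(c.1 + 2, ins (m' + 3 + 3) (c.1 + 2) c.2), ?_, ?_, ?_⟩
        · rw [blk3]
          apply List.mem_append_right
          apply List.mem_append_right
          apply List.mem_append_right
          rw [List.mem_map]
          exact ⟨c, hc, rfl⟩
        · show c.1 + 2 = p
          omega
        · intro i hi
          rw [h.recon i hi]
          have e1 : c.1 + 2 = p := by omega
          show ins (m' + 3 + 3) p (rem f p) i = ins (m' + 3 + 3) (c.1 + 2) c.2 i
          rw [e1]
          exact ins_congr hp hc2 i hi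

def blk (m : ℕ) : List (ℕ → ℕ) := dec m :: (blk3 m).map Prod.snd

theorem blk_length (m : ℕ) : (blk m).length = d3 m + 1 := by
  unfold blk; simp [blk3_length]

theorem completeB {m : ℕ} {f : ℕ → ℕ} (h : G231 m f) (hm : 0 < m) (h0 : f 0 = m - 1) :
    ∃ b ∈ blk m, ∀ i, i < m → f i = b i := by
  by_cases hz : f (m - 1) = 0
  · exact ⟨dec m, by unfold blk; simp, full_dec h hm hz⟩
  · have hcyc0 := h.cyc 0 hm
    rw [h0] at hcyc0
    have hj : f (f (m - 1)) = 0 := by
      rcases hcyc0 with h1 | h1
      · exact absurd h1 hz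
      · exact h1
    have hjlt : f (m - 1) < m := h.lt _ (by omega)
    have hjne : f (m - 1) ≠ m - 1 := fun e => by
      have := h.inj (m-1) 0 (by omega) hm (by rw [e, h0])
      rw [this] at hz
      rw [this] at e
      omega
    obtain ⟨m', rfl⟩ : ∃ m', m = m' + 3 := ⟨m - 3, by omega⟩
    have e2 : m' + 3 - 1 = m' + 2 := by omega
    rw [e2] at h0 hz hj hjlt hjne
    have hc3 : C3 m' f (f (m' + 2) - 1) := {
      g := h
      h0 := h0
      h1 := by omega
      h2 := by
        have : f (m' + 2) - 1 + 1 = f (m' + 2) := by omega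
        rw [this]; exact hj
      hp := by omega }
    obtain ⟨c, hc, hc1, hc2⟩ := complete3 m' _ _ hc3
    refine ⟨c.2, ?_, hc2⟩
    unfold blk
    rw [List.mem_cons]
    right
    rw [List.mem_map]
    exact ⟨c, hc, rfl⟩

def u : ℕ → ℕ
  | 0 => 1
  | (n+1) => ∑ i : Fin (n + 1), (d3 (i.val + 1) + 1) * u (n - i.val)
decreasing_by omega

theorem u_succ (n : ℕ) : u (n + 1) = ∑ i ∈ Finset.range (n + 1), (d3 (i + 1) + 1) * u (n - i) := by
  rw [u]
  exact Fin.sum_univ_eq_sum_range (fun i => (d3 (i + 1) + 1) * u (n - i)) (n + 1)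

theorem comb_length_aux (n : ℕ) (L : ℕ → List (ℕ → ℕ)) (hL : ∀ k, k ≤ n → (L k).length = u k) :
    (((List.range (n + 1)).map (fun s => ((blk (s + 1)).map
      (fun b => (L (n - s)).map (comb (s + 1) b))).flatten)).flatten).length = u (n + 1) := by
  rw [u_succ, List.length_flatten, List.map_map]
  have : ∀ k, k ≤ n + 1 → (List.map (List.length ∘ fun s => ((blk (s + 1)).map
      (fun b => (L (n - s)).map (comb (s + 1) b))).flatten) (List.range k)).sum
      = ∑ i ∈ Finset.range k, (d3 (i + 1) + 1) * u (n - i) := by
    intro k hk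
    induction k with
    | zero => simp
    | succ k ih =>
      rw [List.range_succ, List.map_append, List.sum_append, ih (by omega), Finset.sum_range_succ]
      congr 1
      simp only [List.map_cons, List.map_nil, List.sum_cons, List.sum_nil, Function.comp_apply,
        List.length_flatten, List.map_map, add_zero]
      have h1 : (List.map (List.length ∘ fun b => List.map (comb (k + 1) b) (L (n - k))) (blk (k + 1)))
          = List.map (fun _ => u (n - k)) (blk (k + 1)) := by
        apply List.map_congr_left
        intro b _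
        simp only [Function.comp_apply, List.length_map]
        exact hL (n - k) (by omega)
      rw [h1, List.map_const', List.sum_replicate, blk_length, smul_eq_mul]
  exact this (n + 1) le_rfl

theorem completeAll : ∀ n, ∃ L : List (ℕ → ℕ), L.length = u n ∧
    ∀ f, G231 n f → ∃ g ∈ L, ∀ i, i < n → f i = g i := by
  intro n
  induction n using Nat.strong_induction_on with
  | _ n ih =>
  rcases n with _ | n
  · exact ⟨[id], by rw [u]; rfl, fun f _ => ⟨id, by simp, fun i hi => by omega⟩⟩
  · have hex : ∀ k, ∃ L : List (ℕ → ℕ), k ≤ n → (L.length = u k ∧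
        ∀ f, G231 k f → ∃ g ∈ L, ∀ i, i < k → f i = g i) := by
      intro k
      by_cases hk : k ≤ n
      · obtain ⟨L, h1⟩ := ih k (by omega)
        exact ⟨L, fun _ => h1⟩
      · exact ⟨[], fun h => absurd h hk⟩
    choose L hL using hex
    refine ⟨_, comb_length_aux n L (fun k hk => (hL k hk).1), ?_⟩
    intro f hf
    have hn : 0 < n + 1 := by omega
    have h0 := hf.lt 0 hn
    have bl := block_lt hf hn
    have bg := block_ge hf hn
    have ht : G231 (f 0 + 1) f := hf.take (f 0 + 1) (by omega) (fun i hi => by
      have := bl i (by omega)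
      omega)
    have hd : G231 (n + 1 - (f 0 + 1)) (fun i => f (i + (f 0 + 1)) - (f 0 + 1)) :=
      hf.drop (f 0 + 1) (by omega) (fun i hi hin => by
        have := bg i (by omega) hin
        omega)
    obtain ⟨b, hb, hb2⟩ := completeB ht (by omega) (by omega)
    have e1 : n + 1 - (f 0 + 1) = n - f 0 := by omega
    rw [e1] at hd
    obtain ⟨g, hg, hg2⟩ := (hL (n - f 0) (by omega)).2 _ hd
    refine ⟨comb (f 0 + 1) b g, ?_, ?_⟩
    · rw [List.mem_flatten]
      refine ⟨((blk (f 0 + 1)).map (fun b => (L (n - f 0)).map (comb (f 0 + 1) b))).flatten, ?_, ?_⟩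
      · rw [List.mem_map]
        exact ⟨f 0, by rw [List.mem_range]; omega, rfl⟩
      · rw [List.mem_flatten]
        refine ⟨(L (n - f 0)).map (comb (f 0 + 1) b), ?_, ?_⟩
        · rw [List.mem_map]
          exact ⟨b, hb, rfl⟩
        · rw [List.mem_map]
          exact ⟨g, hg, rfl⟩
    · intro i hi
      unfold comb
      split_ifs with h1
      · exact hb2 i h1
      · have h2 := hg2 (i - (f 0 + 1)) (by omega)
        have e3 : i - (f 0 + 1) + (f 0 + 1) = i := by omega
        simp only [e3] at h2
        have := bg i (by omega) hi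
        omega

end Pool.Agent.V11120.Fa04
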