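import Mathlib

/-!
# Queue configurations for 321-avoiding permutations with cycles of length at most three
-/

namespace Pool.Agent.V11120.Fa04

/-- one side of the invariant: `P` pending sources, `Q` pending targets at time `k`. -/
structure Half (k : ℕ) (f g : ℕ → ℕ) (P Q : List ℕ) : Prop where
  Pk : ∀ x ∈ P, x < k
  Ps : P.Pairwise (· < ·)
  fd : ∀ x, x < k → x ∉ P → f x < k ∧ f x ∉ Q ∧ g (f x) = x
  fe : ∀ x y, x < y → y < k → x ∉ P → y ∉ P → x ≤ f x → y ≤ f y → f x < f y
  fp : ∀ y, y < k → y ∉ P → y ≤ f y → ∀ x ∈ P, y < x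
  cy : ∀ x, x < k → x ∉ P → x ∉ Q → f x = g x ∨ (f (f x) = g x ∧ g (g x) = f x)

structure Cfg (k : ℕ) (f g : ℕ → ℕ) (P Q : List ℕ) : Prop where
  l : Half k f g P Q
  r : Half k g f Q P

theorem Cfg.swap {k : ℕ} {f g : ℕ → ℕ} {P Q : List ℕ} (h : Cfg k f g P Q) : Cfg k g f Q P :=
  ⟨h.r, h.l⟩

theorem pairwise_append_last {P : List ℕ} {k : ℕ} (h : P.Pairwise (· < ·)) (hk : ∀ x ∈ P, x < k) :
    (P ++ [k]).Pairwise (· < ·) := by
  rw [List.pairwise_append]
  refine ⟨h, List.pairwise_singleton _ _, ?_⟩
  intro a ha b hb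
  rw [List.mem_singleton] at hb
  subst hb
  exact hk a ha

/-- step `U` -/
theorem Half.stepU {k : ℕ} {f g : ℕ → ℕ} {P Q : List ℕ} (h : Half k f g P Q) :
    Half (k + 1) f g (P ++ [k]) (Q ++ [k]) where
  Pk := by
    intro x hx
    rw [List.mem_append, List.mem_singleton] at hx
    rcases hx with hx | hx
    · have := h.Pk x hx; omega
    · omega
  Ps := pairwise_append_last h.Ps h.Pk
  fd := by
    intro x hx hxP
    rw [List.mem_append, List.mem_singleton, not_or] at hxP
    obtain ⟨a, b, c⟩ := h.fd x (by omega) hxP.1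
    refine ⟨by omega, ?_, c⟩
    rw [List.mem_append, List.mem_singleton, not_or]
    exact ⟨b, by omega⟩
  fe := by
    intro x y hxy hy hxP hyP
    rw [List.mem_append, List.mem_singleton, not_or] at hxP hyP
    exact h.fe x y hxy (by omega) hxP.1 hyP.1
  fp := by
    intro y hy hyP hyf x hx
    rw [List.mem_append, List.mem_singleton] at hx
    rw [List.mem_append, List.mem_singleton, not_or] at hyP
    rcases hx with hx | hx
    · exact h.fp y (by omega) hyP.1 hyf x hx
    · omega
  cy := by
    intro x hx hxP hxQ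
    rw [List.mem_append, List.mem_singleton, not_or] at hxP hxQ
    exact h.cy x (by omega) hxP.1 hxQ.1

theorem Cfg.stepU {k : ℕ} {f g : ℕ → ℕ} {P Q : List ℕ} (h : Cfg k f g P Q) :
    Cfg (k + 1) f g (P ++ [k]) (Q ++ [k]) := ⟨h.l.stepU, h.r.stepU⟩

/-- function update -/
def upd (f : ℕ → ℕ) (a v : ℕ) : ℕ → ℕ := fun x => if x = a then v else f x

theorem upd_same (f : ℕ → ℕ) (a v : ℕ) : upd f a v a = v := by unfold upd; simp
theorem upd_ne (f : ℕ → ℕ) {a v x : ℕ} (h : x ≠ a) : upd f a v x = f x := by
  unfold upd; simp [h]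

/-- step `F` -/
theorem Half.stepF {k : ℕ} {f g : ℕ → ℕ} (h : Half k f g [] []) :
    Half (k + 1) (upd f k k) (upd g k k) [] [] where
  Pk := by intro x hx; simp at hx
  Ps := List.Pairwise.nil
  fd := by
    intro x hx _
    by_cases hk : x = k
    · subst hk
      rw [upd_same, upd_same]
      exact ⟨by omega, by simp, rfl⟩
    · obtain ⟨a, b, c⟩ := h.fd x (by omega) (by simp)
      rw [upd_ne _ hk, upd_ne _ (by omega)]
      exact ⟨by omega, by simp, c⟩
  fe := by
    intro x y hxy hy _ _ hx2 hy2
    by_cases hk : y = k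
    · subst hk
      rw [upd_same, upd_ne _ (by omega)]
      exact (h.fd x hxy (by simp)).1
    · rw [upd_ne _ (by omega)] at hx2 hy2 ⊢
      rw [upd_ne _ (by omega)]
      exact h.fe x y hxy (by omega) (by simp) (by simp) hx2 hy2
  fp := by intro y _ _ _ x hx; simp at hx
  cy := by
    intro x hx _ _
    by_cases hk : x = k
    · subst hk
      left; rw [upd_same, upd_same]
    · have a := (h.fd x (by omega) (by simp)).1
      rw [upd_ne f hk, upd_ne g hk]
      rcases h.cy x (by omega) (by simp) (by simp) with h1 | h1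
      · left; exact h1
      · right
        have hg : g x < k := by
          rw [← h1.1]
          exact (h.fd _ a (by simp)).1
        rw [upd_ne f (by omega), upd_ne g (by omega)]
        exact h1

theorem Cfg.stepF {k : ℕ} {f g : ℕ → ℕ} (h : Cfg k f g [] []) :
    Cfg (k + 1) (upd f k k) (upd g k k) [] [] := ⟨h.l.stepF, h.r.stepF⟩

/-- step `A`: the head `a` of the source queue is also a pending target; it gets image `k`, and
`k` becomes a pending source. -/
theorem Cfg.stepA {k a : ℕ} {f g : ℕ → ℕ} {P Q : List ℕ} (h : Cfg k f g (a :: P) Q) (haQ : a ∈ Q) :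
    Cfg (k + 1) (upd f a k) (upd g k a) (P ++ [k]) Q := by
  have hak : a < k := h.l.Pk a (by simp)
  have hsort := h.l.Ps
  rw [List.pairwise_cons] at hsort
  have haP : a ∉ P := fun hh => by
    have := hsort.1 a hh
    omega
  have hPk : ∀ x ∈ P, x < k := fun x hx => h.l.Pk x (by simp [hx])
  have hkP : k ∉ P := fun hh => by have := hPk k hh; omega
  have hkQ : k ∉ Q := fun hh => by have := h.r.Pk k hh; omega
  have cyf : ∀ x, x < k + 1 → x ∉ P ++ [k] → x ∉ Q →
      (upd f a k) x = (upd g k a) x ∨
      ((upd f a k) ((upd f a k) x) = (upd g k a) x ∧ (upd g k a) ((upd g k a) x) = (upd f a k) x) := by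
    intro x hx hxP hxQ
    rw [List.mem_append, List.mem_singleton, not_or] at hxP
    have hxa : x ≠ a := fun e => hxQ (e ▸ haQ)
    have hxP' : x ∉ a :: P := by
      rw [List.mem_cons, not_or]; exact ⟨hxa, hxP.1⟩
    rw [upd_ne f hxa, upd_ne g hxP.2]
    obtain ⟨b1, b2, b3⟩ := h.l.fd x (by omega) hxP'
    obtain ⟨c1, c2, c3⟩ := h.r.fd x (by omega) hxQ
    rcases h.l.cy x (by omega) hxP' hxQ with h1 | h1
    · left; exact h1
    · right
      have e1 : f x ≠ a := fun e => b2 (e ▸ haQ)
      rw [upd_ne f e1, upd_ne g (by omega)]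
      exact h1
  refine ⟨⟨?_, ?_, ?_, ?_, ?_, cyf⟩, ⟨?_, ?_, ?_, ?_, ?_, ?_⟩⟩
  · -- Pk
    intro x hx
    rw [List.mem_append, List.mem_singleton] at hx
    rcases hx with hx | hx
    · have := hPk x hx; omega
    · omega
  · exact pairwise_append_last hsort.2 hPk
  · -- fd
    intro x hx hxP
    rw [List.mem_append, List.mem_singleton, not_or] at hxP
    by_cases hxa : x = a
    · subst hxa
      rw [upd_same, upd_same]
      exact ⟨by omega, hkQ, rfl⟩
    · obtain ⟨b1, b2, b3⟩ := h.l.fd x (by omega) (by rw [List.mem_cons, not_or]; exact ⟨hxa, hxP.1⟩)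
      rw [upd_ne f hxa, upd_ne g (by omega)]
      exact ⟨by omega, b2, b3⟩
  · -- fe
    intro x y hxy hy hxP hyP hx2 hy2
    rw [List.mem_append, List.mem_singleton, not_or] at hxP hyP
    by_cases hya : y = a
    · subst hya
      rw [upd_ne f (by omega), upd_same]
      exact (h.l.fd x (by omega) (by rw [List.mem_cons, not_or]; exact ⟨by omega, hxP.1⟩)).1
    · have hyP' : y ∉ a :: P := by rw [List.mem_cons, not_or]; exact ⟨hya, hyP.1⟩
      rw [upd_ne f hya] at hy2 ⊢
      by_cases hxa : x = a
      · subst hxa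
        have := h.l.fp y (by omega) hyP' hy2 x (by simp)
        omega
      · rw [upd_ne f hxa] at hx2 ⊢
        exact h.l.fe x y hxy (by omega) (by rw [List.mem_cons, not_or]; exact ⟨hxa, hxP.1⟩) hyP' hx2 hy2
  · -- fp
    intro y hy hyP hy2 x hx
    rw [List.mem_append, List.mem_singleton, not_or] at hyP
    rw [List.mem_append, List.mem_singleton] at hx
    rcases hx with hx | hx
    · by_cases hya : y = a
      · subst hya
        exact hsort.1 x hx
      · rw [upd_ne f hya] at hy2
        exact h.l.fp y (by omega) (by rw [List.mem_cons, not_or]; exact ⟨hya, hyP.1⟩) hy2 x (by simp [hx])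
    · omega
  · -- Pk right
    intro x hx
    have := h.r.Pk x hx
    omega
  · exact h.r.Ps
  · -- fd right
    intro y hy hyQ
    by_cases hyk : y = k
    · subst hyk
      rw [upd_same, upd_same]
      refine ⟨by omega, ?_, rfl⟩
      rw [List.mem_append, List.mem_singleton, not_or]
      exact ⟨haP, by omega⟩
    · obtain ⟨b1, b2, b3⟩ := h.r.fd y (by omega) hyQ
      rw [List.mem_cons, not_or] at b2
      rw [upd_ne g hyk, upd_ne f b2.1]
      refine ⟨by omega, ?_, b3⟩
      rw [List.mem_append, List.mem_singleton, not_or]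
      exact ⟨b2.2, by omega⟩
  · -- fe right
    intro x y hxy hy hxQ hyQ hx2 hy2
    by_cases hyk : y = k
    · subst hyk
      rw [upd_same] at hy2
      omega
    · rw [upd_ne g (by omega)] at hx2 hy2 ⊢
      rw [upd_ne g (by omega)]
      exact h.r.fe x y hxy (by omega) hxQ hyQ hx2 hy2
  · -- fp right
    intro y hy hyQ hy2 x hx
    by_cases hyk : y = k
    · subst hyk
      rw [upd_same] at hy2
      omega
    · rw [upd_ne g hyk] at hy2
      exact h.r.fp y (by omega) hyQ hy2 x hx
  · -- cy right
    intro x hx hxQ hxP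
    rcases cyf x hx hxP hxQ with h1 | h1
    · left; exact h1.symm
    · right; exact ⟨h1.2, h1.1⟩

/-- step `D`, one side -/
theorem Half.stepD {k a b : ℕ} {f g : ℕ → ℕ} {P Q : List ℕ} (h : Cfg k f g (a :: P) (b :: Q))
    (hm : a = b ∨ (g a = b ∧ a ∉ b :: Q)) :
    Half (k + 1) (upd (upd f a k) k b) (upd (upd g b k) k a) P Q := by
  have hak : a < k := h.l.Pk a (by simp)
  have hbk : b < k := h.r.Pk b (by simp)
  have hsort := h.l.Ps
  rw [List.pairwise_cons] at hsort
  have hsortQ := h.r.Ps
  rw [List.pairwise_cons] at hsortQ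
  have haP : a ∉ P := fun hh => by
    have := hsort.1 a hh
    omega
  have hbQ : b ∉ Q := fun hh => by
    have := hsortQ.1 b hh
    omega
  have hPk : ∀ x ∈ P, x < k := fun x hx => h.l.Pk x (by simp [hx])
  have hQk : ∀ x ∈ Q, x < k := fun x hx => h.r.Pk x (by simp [hx])
  have hkP : k ∉ P := fun hh => by have := hPk k hh; omega
  have hkQ : k ∉ Q := fun hh => by have := hQk k hh; omega
  have fk : upd (upd f a k) k b k = b := upd_same _ _ _
  have gk : upd (upd g b k) k a k = a := upd_same _ _ _
  have fa : upd (upd f a k) k b a = k := by rw [upd_ne _ (by omega), upd_same]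
  have gb : upd (upd g b k) k a b = k := by rw [upd_ne _ (by omega), upd_same]
  have fo : ∀ x, x ≠ a → x ≠ k → upd (upd f a k) k b x = f x := fun x h1 h2 => by
    rw [upd_ne _ h2, upd_ne _ h1]
  have go : ∀ x, x ≠ b → x ≠ k → upd (upd g b k) k a x = g x := fun x h1 h2 => by
    rw [upd_ne _ h2, upd_ne _ h1]
  refine ⟨?_, hsort.2, ?_, ?_, ?_, ?_⟩
  · intro x hx
    have := hPk x hx
    omega
  · -- fd
    intro x hx hxP
    by_cases hxk : x = k
    · subst hxk
      rw [fk, gb]
      exact ⟨by omega, hbQ, rfl⟩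
    · by_cases hxa : x = a
      · subst hxa
        rw [fa, gk]
        exact ⟨by omega, hkQ, rfl⟩
      · obtain ⟨b1, b2, b3⟩ := h.l.fd x (by omega) (by rw [List.mem_cons, not_or]; exact ⟨hxa, hxP⟩)
        rw [List.mem_cons, not_or] at b2
        rw [fo x hxa hxk, go (f x) b2.1 (by omega)]
        exact ⟨by omega, b2.2, b3⟩
  · -- fe
    intro x y hxy hy hxP hyP hx2 hy2
    by_cases hyk : y = k
    · subst hyk
      rw [fk] at hy2
      omega
    · by_cases hya : y = a
      · subst hya
        rw [fo x (by omega) (by omega), fa]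
        exact (h.l.fd x (by omega) (by rw [List.mem_cons, not_or]; exact ⟨by omega, hxP⟩)).1
      · have hyP' : y ∉ a :: P := by rw [List.mem_cons, not_or]; exact ⟨hya, hyP⟩
        rw [fo y hya hyk] at hy2 ⊢
        by_cases hxa : x = a
        · subst hxa
          have := h.l.fp y (by omega) hyP' hy2 x (by simp)
          omega
        · rw [fo x hxa (by omega)] at hx2 ⊢
          exact h.l.fe x y hxy (by omega) (by rw [List.mem_cons, not_or]; exact ⟨hxa, hxP⟩) hyP' hx2 hy2
  · -- fp
    intro y hy hyP hy2 x hx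
    by_cases hyk : y = k
    · subst hyk
      rw [fk] at hy2
      omega
    · by_cases hya : y = a
      · subst hya
        exact hsort.1 x hx
      · rw [fo y hya hyk] at hy2
        exact h.l.fp y (by omega) (by rw [List.mem_cons, not_or]; exact ⟨hya, hyP⟩) hy2 x (by simp [hx])
  · -- cy
    intro x hx hxP hxQ
    by_cases hxk : x = k
    · subst hxk
      rw [fk, gk]
      rcases hm with h1 | ⟨h1, h2⟩
      · left; exact h1.symm
      · right
        obtain ⟨c1, c2, c3⟩ := h.r.fd a (by omega) h2
        rw [h1] at c1 c2 c3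
        have hab : a ≠ b := fun e => h2 (by rw [e]; simp)
        rw [fo b (fun e => hab e.symm) (by omega), go a hab (by omega)]
        exact ⟨c3, h1⟩
    · by_cases hxa : x = a
      · rcases hm with h1 | ⟨h1, h2⟩
        · left
          rw [hxa, fa]
          exact ((congrArg (upd (upd g b k) k a) h1).trans gb).symm
        · right
          have hab : a ≠ b := fun e => h2 (by rw [e]; simp)
          rw [hxa, fa, fk, go a hab (by omega), h1, gb]
          exact ⟨rfl, rfl⟩
      · by_cases hxb : x = b
        · rcases hm with h1 | ⟨h1, h2⟩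
          · exact absurd (hxb.trans h1.symm) hxa
          · right
            obtain ⟨c1, c2, c3⟩ := h.r.fd a (by omega) h2
            rw [h1] at c1 c2 c3
            have hab : a ≠ b := fun e => h2 (by rw [e]; simp)
            rw [hxb, gb, gk, fo b (fun e => hab e.symm) (by omega), c3, fa]
            exact ⟨rfl, rfl⟩
        · have hxP' : x ∉ a :: P := by rw [List.mem_cons, not_or]; exact ⟨hxa, hxP⟩
          have hxQ' : x ∉ b :: Q := by rw [List.mem_cons, not_or]; exact ⟨hxb, hxQ⟩
          obtain ⟨b1, b2, b3⟩ := h.l.fd x (by omega) hxP'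
          obtain ⟨c1, c2, c3⟩ := h.r.fd x (by omega) hxQ'
          rw [List.mem_cons, not_or] at b2 c2
          rw [fo x hxa hxk, go x hxb hxk]
          rcases h.l.cy x (by omega) hxP' hxQ' with h1 | h1
          · left; exact h1
          · right
            have e1 : f x ≠ a := by
              rcases hm with h3 | ⟨h3, h4⟩
              · rw [h3]; exact b2.1
              · intro e
                rw [e, h3] at b3
                exact hxb b3.symm
            have e2 : g x ≠ b := by
              rcases hm with h3 | ⟨h3, h4⟩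
              · rw [← h3]; exact c2.1
              · intro e
                obtain ⟨d1, d2, d3⟩ := h.r.fd a (by omega) h4
                rw [h3] at d3
                rw [e] at c3
                exact hxa (c3.symm.trans d3)
            rw [fo (f x) e1 (by omega), go (g x) e2 (by omega)]
            exact h1

theorem Cfg.stepD {k a b : ℕ} {f g : ℕ → ℕ} {P Q : List ℕ} (h : Cfg k f g (a :: P) (b :: Q))
    (hm : a = b ∨ (g a = b ∧ a ∉ b :: Q)) :
    Cfg (k + 1) (upd (upd f a k) k b) (upd (upd g b k) k a) P Q := by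
  refine ⟨Half.stepD h hm, Half.stepD h.swap ?_⟩
  rcases hm with h1 | ⟨h1, h2⟩
  · left; exact h1.symm
  · right
    have hak : a < k := h.l.Pk a (by simp)
    obtain ⟨d1, d2, d3⟩ := h.r.fd a hak h2
    rw [h1] at d2 d3
    exact ⟨d3, d2⟩

end Pool.Agent.V11120.Fa04
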