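import Pool.Agent.V11120.Fa04C

/-!
# Counting 321-avoiding permutations with cycles of length at most three from below
-/

namespace Pool.Agent.V11120.Fa04

def mv : List Bool → List ℕ → List ℕ
  | (true :: w), (x :: P) => x :: mv w P
  | (false :: w), (_ :: P) => mv w P
  | _, _ => []

def fr : List Bool → List ℕ → List ℕ
  | (true :: w), (_ :: P) => fr w P
  | (false :: w), (x :: P) => x :: fr w P
  | _, _ => []

theorem mv_sub : ∀ (w : List Bool) (P : List ℕ), ∀ x ∈ mv w P, x ∈ P
  | (true :: w), (y :: P), x, hx => by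
    rw [mv, List.mem_cons] at hx
    rcases hx with hx | hx
    · simp [hx]
    · simp [mv_sub w P x hx]
  | (false :: w), (y :: P), x, hx => by
    rw [mv] at hx
    simp [mv_sub w P x hx]
  | [], P, x, hx => by simp [mv] at hx
  | (_ :: w), [], x, hx => by simp [mv] at hx

theorem mv_append : ∀ (w : List Bool) (P : List ℕ) (b : Bool) (k : ℕ), w.length = P.length →
    mv (w ++ [b]) (P ++ [k]) = mv w P ++ (if b then [k] else [])
  | [], [], b, k, _ => by cases b <;> simp [mv]
  | (true :: w), (x :: P), b, k, h => by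
    have := mv_append w P b k (by simpa using h)
    simp [mv, this]
  | (false :: w), (x :: P), b, k, h => by
    have := mv_append w P b k (by simpa using h)
    simp [mv, this]
  | [], (_ :: _), _, _, h => by simp at h
  | (_ :: _), [], _, _, h => by simp at h

theorem fr_append : ∀ (w : List Bool) (P : List ℕ) (b : Bool) (k : ℕ), w.length = P.length →
    fr (w ++ [b]) (P ++ [k]) = fr w P ++ (if b then [] else [k])
  | [], [], b, k, _ => by cases b <;> simp [fr]
  | (true :: w), (x :: P), b, k, h => by
    have := fr_append w P b k (by simpa using h)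
    simp [fr, this]
  | (false :: w), (x :: P), b, k, h => by
    have := fr_append w P b k (by simpa using h)
    simp [fr, this]
  | [], (_ :: _), _, _, h => by simp at h
  | (_ :: _), [], _, _, h => by simp at h

theorem mv_allfalse : ∀ (w : List Bool) (P : List ℕ), true ∉ w → mv w P = []
  | (true :: w), (x :: P), h => by simp at h
  | (false :: w), (x :: P), h => by
    rw [mv]; exact mv_allfalse w P (fun hh => h (by simp [hh]))
  | [], P, _ => by simp [mv]
  | (_ :: w), [], _ => by simp [mv]

theorem fr_allfalse : ∀ (w : List Bool) (P : List ℕ), true ∉ w → w.length = P.length → fr w P = P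
  | (true :: w), (x :: P), h, _ => by simp at h
  | (false :: w), (x :: P), h, h2 => by
    rw [fr, fr_allfalse w P (fun hh => h (by simp [hh])) (by simpa using h2)]
  | [], [], _, _ => by simp [fr]
  | [], (_ :: _), _, h => by simp at h
  | (_ :: _), [], _, h => by simp at h

structure St (w : List Bool) (g : ℕ → ℕ) (P Q : List ℕ) : Prop where
  len : w.length = P.length
  q : Q = (mv w P).map g ++ fr w P
  nq : ∀ x ∈ mv w P, x ∉ Q

theorem St.stepU {w : List Bool} {g : ℕ → ℕ} {P Q : List ℕ} {k : ℕ} (h : St w g P Q)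
    (hP : ∀ x ∈ P, x < k) : St (w ++ [false]) g (P ++ [k]) (Q ++ [k]) where
  len := by simp [h.len]
  q := by
    rw [mv_append _ _ _ _ h.len, fr_append _ _ _ _ h.len]
    nth_rewrite 1 [h.q]
    simp
  nq := by
    rw [mv_append _ _ _ _ h.len]
    intro x hx
    have hx' : x ∈ mv w P := by simpa using hx
    rw [List.mem_append, List.mem_singleton, not_or]
    have := hP x (mv_sub w P x hx')
    exact ⟨h.nq x hx', by omega⟩

theorem St.stepA {w : List Bool} {g : ℕ → ℕ} {P Q : List ℕ} {k a : ℕ}
    (h : St (false :: w) g (a :: P) Q)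
    (hP : ∀ x ∈ a :: P, x < k) (hQ : ∀ x ∈ Q, x < k) :
    St (w ++ [true]) (upd g k a) (P ++ [k]) Q where
  len := by have := h.len; simpa using this
  q := by
    have hl : w.length = P.length := by have := h.len; simpa using this
    rw [mv_append _ _ _ _ hl, fr_append _ _ _ _ hl]
    have h1 := h.q
    rw [mv, fr] at h1
    nth_rewrite 1 [h1]
    have h2 : (mv w P).map (upd g k a) = (mv w P).map g := by
      apply List.map_congr_left
      intro x hx
      apply upd_ne
      have := hP x (by simp [mv_sub w P x hx])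
      omega
    simp [h2, upd_same]
  nq := by
    have hl : w.length = P.length := by have := h.len; simpa using this
    rw [mv_append _ _ _ _ hl]
    intro x hx
    rw [List.mem_append] at hx
    rcases hx with hx | hx
    · exact h.nq x (by rw [mv]; exact hx)
    · have hxk : x = k := by simpa using hx
      subst hxk
      intro hh
      have := hQ _ hh
      omega

theorem St.mem_head {w : List Bool} {g : ℕ → ℕ} {P Q : List ℕ} {a : ℕ}
    (h : St (false :: w) g (a :: P) Q) : a ∈ Q := by
  rw [h.q, mv, fr]; simp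

/-- number of words -/
def cnt : ℕ → List Bool → ℕ
  | 0, w => if w = [] then 1 else 0
  | (n+1), w => (if w.length < 4 then cnt n (w ++ [false]) else 0) +
    (match w with
     | [] => cnt n []
     | true :: w' => cnt n w'
     | false :: w' => cnt n (w' ++ [true]) +
        (if true ∈ w' then 0 else cnt n w' + cnt n (w' ++ [true])))

def good (N : ℕ) (π : Equiv.Perm (Fin N)) : Prop :=
  (∀ i j k : Fin N, i < j → j < k → π j < π i → π k < π j → False) ∧
    ∀ i : Fin N, π (π i) = i ∨ π (π (π i)) = i

theorem good.symm {N : ℕ} {π : Equiv.Perm (Fin N)} (h : good N π) : good N π.symm := by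
  refine ⟨?_, ?_⟩
  · intro i j k hij hjk h1 h2
    refine h.1 (π.symm k) (π.symm j) (π.symm i) h2 h1 ?_ ?_
    · simpa using hjk
    · simpa using hij
  · intro i
    rcases h.2 (π.symm (π.symm (π.symm i))) with h1 | h1
    · left
      simp only [Equiv.apply_symm_apply] at h1
      have := congrArg π h1
      simp only [Equiv.apply_symm_apply] at this
      exact this.symm
    · right
      simp only [Equiv.apply_symm_apply] at h1
      exact h1.symm

structure Ext (N k : ℕ) (f g : ℕ → ℕ) (P Q : List ℕ) (π : Equiv.Perm (Fin N)) : Prop where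
  gd : good N π
  e1 : ∀ x : Fin N, x.val < k → x.val ∉ P → (π x).val = f x.val
  e2 : ∀ x : Fin N, x.val ∈ P → k ≤ (π x).val
  e3 : ∀ y : Fin N, y.val < k → y.val ∉ Q → (π.symm y).val = g y.val
  e4 : ∀ y : Fin N, y.val ∈ Q → k ≤ (π.symm y).val

theorem Ext.swap {N k : ℕ} {f g : ℕ → ℕ} {P Q : List ℕ} {π : Equiv.Perm (Fin N)}
    (h : Ext N k f g P Q π) : Ext N k g f Q P π.symm :=
  ⟨h.gd.symm, h.e3, h.e4, by simpa using h.e1, by simpa using h.e2⟩

open Classical in
noncomputable def Compl (N k : ℕ) (f g : ℕ → ℕ) (P Q : List ℕ) : Finset (Equiv.Perm (Fin N)) :=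
  Finset.univ.filter (fun π => Ext N k f g P Q π)

theorem mem_Compl {N k : ℕ} {f g : ℕ → ℕ} {P Q : List ℕ} {π : Equiv.Perm (Fin N)} :
    π ∈ Compl N k f g P Q ↔ Ext N k f g P Q π := by
  unfold Compl; simp

theorem Compl_swap_card (N k : ℕ) (f g : ℕ → ℕ) (P Q : List ℕ) :
    (Compl N k f g P Q).card ≤ (Compl N k g f Q P).card := by
  apply Finset.card_le_card_of_injOn (fun π => π.symm)
  · intro π hπ
    have h1 : π ∈ Compl N k f g P Q := hπ
    rw [mem_Compl] at h1
    show π.symm ∈ Compl N k g f Q P
    rw [mem_Compl]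
    exact h1.swap
  · intro π _ ρ _ h
    have h' : π.symm = ρ.symm := h
    have := congrArg Equiv.symm h'
    simpa using this

/-- extension sets shrink along steps -/
theorem Ext.mono {N k : ℕ} {f g f' g' : ℕ → ℕ} {P Q P' Q' : List ℕ} {π : Equiv.Perm (Fin N)}
    (h : Ext N (k+1) f' g' P' Q' π)
    (hf : ∀ x, x < k → x ∉ P → x ∉ P' ∧ f' x = f x)
    (hP : ∀ x ∈ P, x < k ∧ (x ∈ P' ∨ (x ∉ P' ∧ k ≤ f' x)))
    (hg : ∀ x, x < k → x ∉ Q → x ∉ Q' ∧ g' x = g x)
    (hQ : ∀ x ∈ Q, x < k ∧ (x ∈ Q' ∨ (x ∉ Q' ∧ k ≤ g' x))) :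
    Ext N k f g P Q π where
  gd := h.gd
  e1 := fun x hx hxP => by
    obtain ⟨a, b⟩ := hf x.val hx hxP
    rw [h.e1 x (by omega) a, b]
  e2 := fun x hx => by
    obtain ⟨a, b⟩ := hP x.val hx
    rcases b with b | ⟨b, c⟩
    · have := h.e2 x b; omega
    · rw [h.e1 x (by omega) b]; exact c
  e3 := fun x hx hxP => by
    obtain ⟨a, b⟩ := hg x.val hx hxP
    rw [h.e3 x (by omega) a, b]
  e4 := fun x hx => by
    obtain ⟨a, b⟩ := hQ x.val hx
    rcases b with b | ⟨b, c⟩
    · have := h.e4 x b; omega
    · rw [h.e3 x (by omega) b]; exact c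

theorem four_split {α : Type*} (S A B C D : Finset α) (p q : α → Prop)
    (hA : ∀ x ∈ A, x ∈ S ∧ p x ∧ q x) (hB : ∀ x ∈ B, x ∈ S ∧ p x ∧ ¬ q x)
    (hC : ∀ x ∈ C, x ∈ S ∧ ¬ p x ∧ q x) (hD : ∀ x ∈ D, x ∈ S ∧ ¬ p x ∧ ¬ q x) :
    A.card + B.card + C.card + D.card ≤ S.card := by
  classical
  have h1 : Disjoint A B := by
    rw [Finset.disjoint_left]; intro x hx hy; exact (hB x hy).2.2 (hA x hx).2.2
  have h2 : Disjoint (A ∪ B) C := by
    rw [Finset.disjoint_left]; intro x hx hy
    rw [Finset.mem_union] at hx
    rcases hx with hx | hx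
    · exact (hC x hy).2.1 (hA x hx).2.1
    · exact (hC x hy).2.1 (hB x hx).2.1
  have h3 : Disjoint (A ∪ B ∪ C) D := by
    rw [Finset.disjoint_left]; intro x hx hy
    rw [Finset.mem_union, Finset.mem_union] at hx
    rcases hx with (hx | hx) | hx
    · exact (hD x hy).2.1 (hA x hx).2.1
    · exact (hD x hy).2.1 (hB x hx).2.1
    · exact (hD x hy).2.2 (hC x hx).2.2
  rw [← Finset.card_union_of_disjoint h1, ← Finset.card_union_of_disjoint h2,
    ← Finset.card_union_of_disjoint h3]
  apply Finset.card_le_card
  intro x hx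
  rw [Finset.mem_union, Finset.mem_union, Finset.mem_union] at hx
  rcases hx with ((hx | hx) | hx) | hx
  · exact (hA x hx).1
  · exact (hB x hx).1
  · exact (hC x hx).1
  · exact (hD x hx).1

/-- final configuration gives a permutation -/
theorem base {N : ℕ} {f g : ℕ → ℕ} (h : Cfg N f g [] []) : 1 ≤ (Compl N N f g [] []).card := by
  have hf : ∀ x, x < N → f x < N ∧ g (f x) = x := fun x hx =>
    ⟨(h.l.fd x hx (by simp)).1, (h.l.fd x hx (by simp)).2.2⟩
  have hg : ∀ x, x < N → g x < N ∧ f (g x) = x := fun x hx =>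
    ⟨(h.r.fd x hx (by simp)).1, (h.r.fd x hx (by simp)).2.2⟩
  let π : Equiv.Perm (Fin N) :=
    { toFun := fun x => ⟨f x.val, (hf x.val x.isLt).1⟩
      invFun := fun x => ⟨g x.val, (hg x.val x.isLt).1⟩
      left_inv := fun x => by
        apply Fin.ext
        exact (hf x.val x.isLt).2
      right_inv := fun x => by
        apply Fin.ext
        exact (hg x.val x.isLt).2 }
  have hπ : ∀ x : Fin N, (π x).val = f x.val := fun x => rfl
  have hπs : ∀ x : Fin N, (π.symm x).val = g x.val := fun x => rfl
  rw [Nat.one_le_iff_ne_zero, Finset.card_ne_zero]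
  refine ⟨π, ?_⟩
  rw [mem_Compl]
  refine ⟨⟨?_, ?_⟩, fun x _ _ => hπ x, fun x hx => by simp at hx, fun x _ _ => hπs x,
    fun x hx => by simp at hx⟩
  · intro i j k hij hjk h1 h2
    have h1' : f j.val < f i.val := h1
    have h2' : f k.val < f j.val := h2
    have hij' : i.val < j.val := hij
    have hjk' : j.val < k.val := hjk
    have hk := k.isLt
    -- weak excedances increase
    have fe : ∀ x y, x < y → y < N → x ≤ f x → y ≤ f y → f x < f y := fun x y a b c d =>
      h.l.fe x y a b (by simp) (by simp) c d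
    -- weak anti-excedances increase
    have ge : ∀ x y, x < y → y < N → f x ≤ x → f y ≤ y → f x < f y := by
      intro x y a b c d
      by_contra hc
      push Not at hc
      have hxy : f y ≠ f x := fun e => by
        have e2 := congrArg g e
        rw [(hf x (by omega)).2, (hf y b).2] at e2
        omega
      have := h.r.fe (f y) (f x) (by omega) (hf x (by omega)).1 (by simp) (by simp)
        (by rw [(hf y b).2]; exact d) (by rw [(hf x (by omega)).2]; exact c)
      rw [(hf x (by omega)).2, (hf y b).2] at this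
      omega
    rcases Nat.lt_or_ge (f j.val) j.val with hj | hj
    · -- j is anti-excedance
      rcases Nat.lt_or_ge (f i.val) i.val with hi | hi
      · have := ge i.val j.val hij' (by omega) (by omega) (by omega)
        omega
      · rcases Nat.lt_or_ge (f k.val) k.val with hk2 | hk2
        · have := ge j.val k.val hjk' (by omega) (by omega) (by omega)
          omega
        · omega
    · rcases Nat.lt_or_ge (f i.val) i.val with hi | hi
      · omega
      · have := fe i.val j.val hij' (by omega) hi hj
        omega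
  · intro i
    have hi := i.isLt
    rcases h.l.cy i.val hi (by simp) (by simp) with h1 | h1
    · left
      apply Fin.ext
      show f (f i.val) = i.val
      rw [h1]
      exact (hg i.val hi).2
    · right
      apply Fin.ext
      show f (f (f i.val)) = i.val
      rw [h1.1]
      exact (hg i.val hi).2

end Pool.Agent.V11120.Fa04
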