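import Pool.Agent.V11120.Fa04D

namespace Pool.Agent.V11120.Fa04

theorem extU {N k : ℕ} (hk : k < N) {f g : ℕ → ℕ} {P Q : List ℕ} {π : Equiv.Perm (Fin N)}
    (h : Cfg k f g P Q) (he : Ext N (k+1) f g (P ++ [k]) (Q ++ [k]) π) :
    Ext N k f g P Q π ∧ k < (π ⟨k, hk⟩).val ∧ k < (π.symm ⟨k, hk⟩).val := by
  refine ⟨he.mono ?_ ?_ ?_ ?_, ?_, ?_⟩
  · intro x hx hxP
    rw [List.mem_append, List.mem_singleton, not_or]
    exact ⟨⟨hxP, by omega⟩, rfl⟩
  · intro x hx
    exact ⟨h.l.Pk x hx, Or.inl (by simp [hx])⟩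
  · intro x hx hxP
    rw [List.mem_append, List.mem_singleton, not_or]
    exact ⟨⟨hxP, by omega⟩, rfl⟩
  · intro x hx
    exact ⟨h.r.Pk x hx, Or.inl (by simp [hx])⟩
  · exact he.e2 ⟨k, hk⟩ (by simp)
  · exact he.e4 ⟨k, hk⟩ (by simp)

theorem extA {N k a : ℕ} (hk : k < N) {f g : ℕ → ℕ} {P Q : List ℕ} {π : Equiv.Perm (Fin N)}
    (h : Cfg k f g (a :: P) Q)
    (he : Ext N (k+1) (upd f a k) (upd g k a) (P ++ [k]) Q π) :
    Ext N k f g (a :: P) Q π ∧ k < (π ⟨k, hk⟩).val ∧ ¬ k < (π.symm ⟨k, hk⟩).val := by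
  have hak : a < k := h.l.Pk a (by simp)
  have hsort := h.l.Ps
  rw [List.pairwise_cons] at hsort
  have haP : a ∉ P := fun hh => by
    have := hsort.1 a hh
    omega
  have hkQ : k ∉ Q := fun hh => by have := h.r.Pk k hh; omega
  refine ⟨he.mono ?_ ?_ ?_ ?_, ?_, ?_⟩
  · intro x hx hxP
    rw [List.mem_cons, not_or] at hxP
    rw [List.mem_append, List.mem_singleton, not_or]
    exact ⟨⟨hxP.2, by omega⟩, upd_ne _ hxP.1⟩
  · intro x hx
    refine ⟨h.l.Pk x hx, ?_⟩
    rw [List.mem_cons] at hx
    rcases hx with hx | hx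
    · right
      rw [hx, upd_same, List.mem_append, List.mem_singleton, not_or]
      exact ⟨⟨haP, by omega⟩, le_rfl⟩
    · left; simp [hx]
  · intro x hx hxQ
    exact ⟨hxQ, upd_ne _ (by omega)⟩
  · intro x hx
    exact ⟨h.r.Pk x hx, Or.inl hx⟩
  · exact he.e2 ⟨k, hk⟩ (by simp)
  · have h1 := he.e3 ⟨k, hk⟩ (Nat.lt_succ_self k) hkQ
    have h2 : upd g k a ((⟨k, hk⟩ : Fin N).val) = a := upd_same _ _ _
    rw [h2] at h1
    omega

theorem extD {N k a b : ℕ} (hk : k < N) {f g : ℕ → ℕ} {P Q : List ℕ} {π : Equiv.Perm (Fin N)}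
    (h : Cfg k f g (a :: P) (b :: Q))
    (he : Ext N (k+1) (upd (upd f a k) k b) (upd (upd g b k) k a) P Q π) :
    Ext N k f g (a :: P) (b :: Q) π ∧ ¬ k < (π ⟨k, hk⟩).val ∧ ¬ k < (π.symm ⟨k, hk⟩).val := by
  have hak : a < k := h.l.Pk a (by simp)
  have hbk : b < k := h.r.Pk b (by simp)
  have hsort := h.l.Ps
  rw [List.pairwise_cons] at hsort
  have hsortQ := h.r.Ps
  rw [List.pairwise_cons] at hsortQ
  have haP : a ∉ P := fun hh => by
    have := hsort.1 a hh
    omega
  have hbQ : b ∉ Q := fun hh => by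
    have := hsortQ.1 b hh
    omega
  have hkP : k ∉ P := fun hh => by have := h.l.Pk k (by simp [hh]); omega
  have hkQ : k ∉ Q := fun hh => by have := h.r.Pk k (by simp [hh]); omega
  refine ⟨he.mono ?_ ?_ ?_ ?_, ?_, ?_⟩
  · intro x hx hxP
    rw [List.mem_cons, not_or] at hxP
    exact ⟨hxP.2, by rw [upd_ne _ (by omega), upd_ne _ hxP.1]⟩
  · intro x hx
    refine ⟨h.l.Pk x hx, ?_⟩
    rw [List.mem_cons] at hx
    rcases hx with hx | hx
    · right
      rw [hx, upd_ne _ (by omega), upd_same]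
      exact ⟨haP, le_rfl⟩
    · left; exact hx
  · intro x hx hxP
    rw [List.mem_cons, not_or] at hxP
    exact ⟨hxP.2, by rw [upd_ne _ (by omega), upd_ne _ hxP.1]⟩
  · intro x hx
    refine ⟨h.r.Pk x hx, ?_⟩
    rw [List.mem_cons] at hx
    rcases hx with hx | hx
    · right
      rw [hx, upd_ne _ (by omega), upd_same]
      exact ⟨hbQ, le_rfl⟩
    · left; exact hx
  · have h1 := he.e1 ⟨k, hk⟩ (Nat.lt_succ_self k) hkP
    have h2 : upd (upd f a k) k b ((⟨k, hk⟩ : Fin N).val) = b := upd_same _ _ _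
    rw [h2] at h1
    omega
  · have h1 := he.e3 ⟨k, hk⟩ (Nat.lt_succ_self k) hkQ
    have h2 : upd (upd g b k) k a ((⟨k, hk⟩ : Fin N).val) = a := upd_same _ _ _
    rw [h2] at h1
    omega

theorem extF {N k : ℕ} (hk : k < N) {f g : ℕ → ℕ} {π : Equiv.Perm (Fin N)}
    (he : Ext N (k+1) (upd f k k) (upd g k k) [] [] π) :
    Ext N k f g [] [] π ∧ ¬ k < (π ⟨k, hk⟩).val ∧ ¬ k < (π.symm ⟨k, hk⟩).val := by
  refine ⟨he.mono ?_ ?_ ?_ ?_, ?_, ?_⟩
  · intro x hx hxP
    exact ⟨by simp, upd_ne _ (by omega)⟩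
  · intro x hx; simp at hx
  · intro x hx hxP
    exact ⟨by simp, upd_ne _ (by omega)⟩
  · intro x hx; simp at hx
  · have h1 := he.e1 ⟨k, hk⟩ (Nat.lt_succ_self k) (by simp)
    have h2 : upd f k k ((⟨k, hk⟩ : Fin N).val) = k := upd_same _ _ _
    rw [h2] at h1
    omega
  · have h1 := he.e3 ⟨k, hk⟩ (Nat.lt_succ_self k) (by simp)
    have h2 : upd g k k ((⟨k, hk⟩ : Fin N).val) = k := upd_same _ _ _
    rw [h2] at h1
    omega

theorem lower (N : ℕ) : ∀ n k, k + n = N → ∀ (w : List Bool) (f g : ℕ → ℕ) (P Q : List ℕ),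
    Cfg k f g P Q → St w g P Q → cnt n w ≤ (Compl N k f g P Q).card := by
  intro n
  induction n with
  | zero =>
    intro k hk w f g P Q h hs
    rw [cnt]
    split_ifs with hw
    · have hP : P = [] := by
        have := hs.len
        rw [hw] at this
        exact List.length_eq_zero_iff.mp this.symm
      have hQ : Q = [] := by rw [hs.q, hw, hP]; simp [mv, fr]
      subst hP hQ
      have : k = N := by omega
      subst this
      exact base h
    · exact Nat.zero_le _
  | succ n ih =>
    intro k hkn w f g P Q h hs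
    have hk : k < N := by omega
    have hkn' : k + 1 + n = N := by omega
    have hPk := h.l.Pk
    have hQk := h.r.Pk
    -- the U part
    have hUcard : (if w.length < 4 then cnt n (w ++ [false]) else 0) ≤
        (Compl N (k+1) f g (P ++ [k]) (Q ++ [k])).card := by
      split_ifs with h1
      · exact ih (k+1) hkn' _ _ _ _ _ h.stepU (hs.stepU hPk)
      · exact Nat.zero_le _
    have hU : ∀ π ∈ Compl N (k+1) f g (P ++ [k]) (Q ++ [k]),
        π ∈ Compl N k f g P Q ∧ k < (π ⟨k, hk⟩).val ∧ k < (π.symm ⟨k, hk⟩).val := by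
      intro π hπ
      rw [mem_Compl] at hπ
      obtain ⟨a, b⟩ := extU hk h hπ
      exact ⟨mem_Compl.mpr a, b⟩
    match w, hs, hUcard with
    | [], hs, hUcard =>
      have hP : P = [] := by
        have := hs.len
        exact List.length_eq_zero_iff.mp this.symm
      have hQ : Q = [] := by rw [hs.q, hP]; simp [mv, fr]
      subst hP hQ
      have hF := ih (k+1) hkn' [] _ _ _ _ h.stepF ⟨rfl, by simp [mv, fr], by simp [mv]⟩
      have hsp := four_split (Compl N k f g [] []) (Compl N (k+1) f g ([] ++ [k]) ([] ++ [k])) ∅ ∅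
        (Compl N (k+1) (upd f k k) (upd g k k) [] [])
        (fun π => k < (π ⟨k, hk⟩).val) (fun π => k < (π.symm ⟨k, hk⟩).val) hU
        (fun x hx => by simp at hx) (fun x hx => by simp at hx)
        (fun π hπ => by
          rw [mem_Compl] at hπ
          obtain ⟨a, b⟩ := extF hk hπ
          exact ⟨mem_Compl.mpr a, b⟩)
      rw [cnt]
      simp only [Finset.card_empty, add_zero] at hsp
      exact le_trans (Nat.add_le_add hUcard hF) hsp
    | true :: w', hs, hUcard =>
      rcases P with _ | ⟨a, P⟩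
      · have := hs.len; simp at this
      have hq := hs.q
      rw [mv, fr, List.map_cons, List.cons_append] at hq
      have hanQ : a ∉ Q := hs.nq a (by rw [mv]; simp)
      subst hq
      have hlen : w'.length = P.length := by have := hs.len; simpa using this
      have hbk : g a < k := hQk (g a) (by simp)
      have hst : St w' (upd (upd g (g a) k) k a) P ((mv w' P).map g ++ fr w' P) := by
        refine ⟨hlen, ?_, ?_⟩
        · congr 1
          apply List.map_congr_left
          intro x hx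
          have hx1 : x ∉ g a :: ((mv w' P).map g ++ fr w' P) := hs.nq x (by rw [mv]; simp [hx])
          rw [List.mem_cons, not_or] at hx1
          have hx2 := hPk x (by simp [mv_sub w' P x hx])
          rw [upd_ne _ (by omega), upd_ne _ hx1.1]
        · intro x hx
          have hx1 : x ∉ g a :: ((mv w' P).map g ++ fr w' P) := hs.nq x (by rw [mv]; simp [hx])
          rw [List.mem_cons, not_or] at hx1
          exact hx1.2
      have hD := ih (k+1) hkn' _ _ _ _ _ (h.stepD (Or.inr ⟨rfl, hanQ⟩)) hst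
      have hsp := four_split (Compl N k f g (a :: P) (g a :: ((mv w' P).map g ++ fr w' P)))
        (Compl N (k+1) f g ((a :: P) ++ [k]) ((g a :: ((mv w' P).map g ++ fr w' P)) ++ [k])) ∅ ∅
        (Compl N (k+1) (upd (upd f a k) k (g a)) (upd (upd g (g a) k) k a) P
          ((mv w' P).map g ++ fr w' P))
        (fun π => k < (π ⟨k, hk⟩).val) (fun π => k < (π.symm ⟨k, hk⟩).val) hU
        (fun x hx => by simp at hx) (fun x hx => by simp at hx)
        (fun π hπ => by
          rw [mem_Compl] at hπ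
          obtain ⟨a, b⟩ := extD hk h hπ
          exact ⟨mem_Compl.mpr a, b⟩)
      rw [cnt]
      simp only [Finset.card_empty, add_zero] at hsp
      exact le_trans (Nat.add_le_add hUcard hD) hsp
    | false :: w', hs, hUcard =>
      rcases P with _ | ⟨a, P⟩
      · have := hs.len; simp at this
      have haQ : a ∈ Q := hs.mem_head
      have hlen : w'.length = P.length := by have := hs.len; simpa using this
      have hA := ih (k+1) hkn' _ _ _ _ _ (h.stepA haQ) (hs.stepA hPk hQk)
      have hA2 : ∀ π ∈ Compl N (k+1) (upd f a k) (upd g k a) (P ++ [k]) Q,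
          π ∈ Compl N k f g (a :: P) Q ∧ k < (π ⟨k, hk⟩).val ∧ ¬ k < (π.symm ⟨k, hk⟩).val := by
        intro π hπ
        rw [mem_Compl] at hπ
        obtain ⟨a, b⟩ := extA hk h hπ
        exact ⟨mem_Compl.mpr a, b⟩
      rw [cnt]
      by_cases hw : true ∈ w'
      · have hsp := four_split (Compl N k f g (a :: P) Q)
          (Compl N (k+1) f g ((a :: P) ++ [k]) (Q ++ [k]))
          (Compl N (k+1) (upd f a k) (upd g k a) (P ++ [k]) Q) ∅ ∅
          (fun π => k < (π ⟨k, hk⟩).val) (fun π => k < (π.symm ⟨k, hk⟩).val) hU hA2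
          (fun x hx => by simp at hx) (fun x hx => by simp at hx)
        simp only [Finset.card_empty, add_zero] at hsp
        simp only [hw, if_true, add_zero]
        exact le_trans (Nat.add_le_add hUcard hA) hsp
      · have hmv : mv w' P = [] := mv_allfalse w' P hw
        have hfr : fr w' P = P := fr_allfalse w' P hw hlen
        have hQ : Q = a :: P := by rw [hs.q, mv, fr, hmv, hfr]; rfl
        subst hQ
        -- B part
        have hs' : St (false :: w') f (a :: P) (a :: P) := by
          refine ⟨hs.len, ?_, ?_⟩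
          · rw [mv, fr, hmv, hfr]; rfl
          · rw [mv, hmv]; intro x hx; simp at hx
        have hB := ih (k+1) hkn' _ _ _ _ _ (h.swap.stepA haQ) (hs'.stepA hPk hPk)
        have hB' := le_trans hB (Compl_swap_card N (k+1) _ _ _ _)
        have hB2 : ∀ π ∈ Compl N (k+1) (upd f k a) (upd g a k) (a :: P) (P ++ [k]),
            π ∈ Compl N k f g (a :: P) (a :: P) ∧ ¬ k < (π ⟨k, hk⟩).val ∧
              k < (π.symm ⟨k, hk⟩).val := by
          intro π hπ
          rw [mem_Compl] at hπ
          obtain ⟨c, d, e⟩ := extA hk h.swap hπ.swap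
          have c' := c.swap
          rw [Equiv.symm_symm] at c' e
          exact ⟨mem_Compl.mpr c', e, d⟩
        -- D part
        have hst : St w' (upd (upd g a k) k a) P P := by
          refine ⟨hlen, by rw [hmv, hfr]; rfl, by rw [hmv]; intro x hx; simp at hx⟩
        have hD := ih (k+1) hkn' _ _ _ _ _ (h.stepD (Or.inl rfl)) hst
        have hsp := four_split (Compl N k f g (a :: P) (a :: P))
          (Compl N (k+1) f g ((a :: P) ++ [k]) ((a :: P) ++ [k]))
          (Compl N (k+1) (upd f a k) (upd g k a) (P ++ [k]) (a :: P))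
          (Compl N (k+1) (upd f k a) (upd g a k) (a :: P) (P ++ [k]))
          (Compl N (k+1) (upd (upd f a k) k a) (upd (upd g a k) k a) P P)
          (fun π => k < (π ⟨k, hk⟩).val) (fun π => k < (π.symm ⟨k, hk⟩).val) hU hA2 hB2
          (fun π hπ => by
            rw [mem_Compl] at hπ
            obtain ⟨a, b⟩ := extD hk h hπ
            exact ⟨mem_Compl.mpr a, b⟩)
        simp only [hw, if_false]
        omega

theorem start (N : ℕ) : cnt N [] ≤ (Compl N 0 id id [] []).card := by
  apply lower N N 0 (by omega)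
  · constructor <;>
    · exact ⟨by simp, List.Pairwise.nil, fun x hx => by omega, fun x y hxy hy => by omega,
        fun y hy => by omega, fun x hx => by omega⟩
  · exact ⟨rfl, by simp [mv, fr], by simp [mv]⟩

end Pool.Agent.V11120.Fa04
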