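import Mathlib

set_option autoImplicit false

namespace Pool.Agent.V11120.PMx

/-- search through the vertices `t = (a, b, c)` (edges of the vertex; `a` already labelled) -/
def go (cands : ℕ → List (ℕ × ℕ)) (leaf : (ℕ → ℕ) → Bool) :
    List (ℕ × ℕ × ℕ) → (ℕ → ℕ) → Bool
  | [], st => leaf st
  | t :: vs, st => Nat.beq (st t.1) 0 || (cands (st t.1)).any fun p =>
      (Nat.beq (st t.2.1) 0 || Nat.beq (st t.2.1) p.1) &&
      (Nat.beq (st t.2.2) 0 || Nat.beq (st t.2.2) p.2) &&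
      go cands leaf vs (fun j => bif Nat.beq j t.2.1 then p.1 else
        bif Nat.beq j t.2.2 then p.2 else st j)

theorem go_sound (cands : ℕ → List (ℕ × ℕ)) (leaf : (ℕ → ℕ) → Bool) (L : ℕ → ℕ)
    (hleaf : ∀ st : ℕ → ℕ, (∀ j, st j = 0 ∨ st j = L j) → leaf st = true)
    (vs : List (ℕ × ℕ × ℕ)) (hvs : ∀ t ∈ vs, (L t.2.1, L t.2.2) ∈ cands (L t.1)) :
    ∀ st : ℕ → ℕ, (∀ j, st j = 0 ∨ st j = L j) → go cands leaf vs st = true := by
  induction vs with
  | nil => intro st h; exact hleaf st h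
  | cons t vs ih =>
    intro st h
    unfold go
    rw [Bool.or_eq_true]
    rcases h t.1 with h0 | h0
    · left; rw [h0]; rfl
    · right
      rw [List.any_eq_true]
      refine ⟨(L t.2.1, L t.2.2), by rw [h0]; exact hvs t (by simp), ?_⟩
      rw [Bool.and_eq_true, Bool.and_eq_true]
      refine ⟨⟨?_, ?_⟩, ?_⟩
      · rcases h t.2.1 with h1 | h1
        · rw [h1]; rfl
        · rw [h1]; simp
      · rcases h t.2.2 with h1 | h1
        · rw [h1]; rfl
        · rw [h1]; simp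
      · apply ih (fun s hs => hvs s (by simp [hs]))
        intro j
        by_cases h1 : j = t.2.1
        · right; subst h1; simp
        · have e1 : Nat.beq j t.2.1 = false := by
            rw [Bool.eq_false_iff]; intro hh; exact h1 (Nat.eq_of_beq_eq_true hh)
          rw [e1, cond_false]
          by_cases h2 : j = t.2.2
          · right; subst h2; simp
          · have e2 : Nat.beq j t.2.2 = false := by
              rw [Bool.eq_false_iff]; intro hh; exact h2 (Nat.eq_of_beq_eq_true hh)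
            rw [e2, cond_false]
            exact h j

/-- the ordered pairs of nonempty sets completing the set `x` to a partition of `{1, 2, 3, 4}` -/
def candsA : ℕ → List (ℕ × ℕ)
  | 1 => [(2, 12), (4, 10), (6, 8), (8, 6), (10, 4), (12, 2)]
  | 2 => [(1, 12), (4, 9), (5, 8), (8, 5), (9, 4), (12, 1)]
  | 3 => [(4, 8), (8, 4)]
  | 4 => [(1, 10), (2, 9), (3, 8), (8, 3), (9, 2), (10, 1)]
  | 5 => [(2, 8), (8, 2)]
  | 6 => [(1, 8), (8, 1)]
  | 8 => [(1, 6), (2, 5), (3, 4), (4, 3), (5, 2), (6, 1)]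
  | 9 => [(2, 4), (4, 2)]
  | 10 => [(1, 4), (4, 1)]
  | 12 => [(1, 2), (2, 1)]
  | _ => []

def seqA : List (ℕ × ℕ × ℕ) :=
  [(1, 2, 7), (2, 3, 8), (8, 11, 13), (7, 10, 12), (10, 13, 5), (1, 0, 6), (6, 11, 14),
    (12, 14, 9), (3, 9, 4)]

/-- the class of a two-element set up to complement -/
def col : ℕ → ℕ
  | 3 => 1
  | 12 => 1
  | 5 => 2
  | 10 => 2
  | 6 => 3
  | 9 => 3
  | _ => 0

def dist3 (a b c : ℕ) : Bool :=
  !Nat.beq a 0 && !Nat.beq b 0 && !Nat.beq c 0 && !Nat.beq a b && !Nat.beq a c && !Nat.beq b c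

def leafA (st : ℕ → ℕ) : Bool :=
  Nat.beq (st 0) 0 || Nat.beq (st 4) 0 || Nat.beq (st 5) 0 ||
    !dist3 (col (st 0)) (col (st 4)) (col (st 5))

theorem runA : ([1, 2, 3, 4, 5, 6, 8, 9, 10, 12].any fun x =>
    go candsA leafA seqA (fun j => bif Nat.beq j 1 then x else 0)) = false := by
  decide +kernel

def candsB : ℕ → List (ℕ × ℕ)
  | 1 => [(2, 3), (3, 2)]
  | 2 => [(1, 3), (3, 1)]
  | 3 => [(1, 2), (2, 1)]
  | _ => []

def seqB : List (ℕ × ℕ × ℕ) :=
  [(7, 10, 12), (7, 1, 2), (1, 0, 6), (10, 5, 13), (0, 5, 4), (13, 8, 11), (6, 11, 14),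
    (2, 8, 3), (12, 14, 9), (3, 4, 9)]

theorem runB : ([1, 2, 3].any fun x =>
    go candsB (fun _ => true) seqB (fun j => bif Nat.beq j 7 then x else 0)) = false := by
  decide +kernel

end Pool.Agent.V11120.PMx
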