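import Mathlib
import Pool.Agent.V11120.PMa

set_option autoImplicit false

namespace Pool.Agent.V11120.PMx

/-- the edges at the vertices of the Petersen graph -/
def tP (v k : ℕ) : ℕ :=
  (([[0, 4, 5], [0, 1, 6], [1, 2, 7], [2, 3, 8], [3, 4, 9], [5, 10, 13], [6, 11, 14],
    [7, 10, 12], [8, 11, 13], [9, 12, 14]] : List (List ℕ)).getD v []).getD k 0

/-- the edges of the piece `u` -/
def em (u j : ℕ) : ℕ :=
  if j = 0 then tP u 0 else if j = 4 then tP u 1 else if j = 5 then tP u 2 else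
    15 + 12 * u + (if j < 4 then j - 1 else j - 3)

def tri (v k : ℕ) : ℕ := em (v / 9) (tP (v % 9 + 1) k)

/-- the incidence relation of the graph with 90 vertices -/
def I (v : Fin 90) (e : Fin 135) : Prop :=
  tri v.val 0 = e.val ∨ tri v.val 1 = e.val ∨ tri v.val 2 = e.val

instance (v : Fin 90) (e : Fin 135) : Decidable (I v e) := by unfold I; infer_instance

def e1L : List ℕ :=
    [0, 12, 21, 30, 3, 4, 13, 22, 31, 40, 48, 57, 67, 49, 58, 0, 1, 2, 0, 1, 2, 3, 4, 5, 6, 4,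
    5, 9, 10, 11, 9, 10, 11, 12, 13, 14, 15, 13, 14, 18, 19, 20, 18, 19, 20, 21, 22, 23, 24,
    22, 23, 27, 28, 29, 27, 28, 29, 30, 31, 32, 33, 31, 32, 36, 37, 38, 36, 37, 38, 39, 40, 41,
    42, 40, 41, 45, 46, 47, 45, 46, 47, 48, 49, 50, 51, 49, 50, 54, 55, 56, 54, 55, 56, 57, 58,
    59, 60, 58, 59, 63, 64, 65, 63, 64, 65, 66, 67, 68, 69, 67, 68, 72, 73, 74, 72, 73, 74, 75,
    76, 77, 78, 76, 77, 81, 82, 83, 81, 82, 83, 84, 85, 86, 87, 85, 86]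

def e2L : List ℕ :=
    [9, 18, 27, 36, 39, 45, 54, 63, 72, 81, 66, 75, 84, 76, 85, 1, 2, 3, 5, 6, 7, 8, 6, 7, 8,
    7, 8, 10, 11, 12, 14, 15, 16, 17, 15, 16, 17, 16, 17, 19, 20, 21, 23, 24, 25, 26, 24, 25,
    26, 25, 26, 28, 29, 30, 32, 33, 34, 35, 33, 34, 35, 34, 35, 37, 38, 39, 41, 42, 43, 44, 42,
    43, 44, 43, 44, 46, 47, 48, 50, 51, 52, 53, 51, 52, 53, 52, 53, 55, 56, 57, 59, 60, 61, 62,
    60, 61, 62, 61, 62, 64, 65, 66, 68, 69, 70, 71, 69, 70, 71, 70, 71, 73, 74, 75, 77, 78, 79,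
    80, 78, 79, 80, 79, 80, 82, 83, 84, 86, 87, 88, 89, 87, 88, 89, 88, 89]

def vecL : List ℕ :=
    [1289, 1333, 1586, 1400, 1563, 786, 60, 775, 842, 867, 995, 955, 228, 241, 903, 1396, 1656,
    637, 125, 780, 1029, 1126, 1232, 967, 2012, 1986, 954, 627, 1664, 35, 1914, 1267, 1699,
    1302, 774, 1433, 2037, 826, 739, 812, 1231, 759, 1561, 2019, 1592, 1221, 1954, 669, 65,
    1189, 1156, 1409, 910, 908, 947, 1551, 2, 1780, 1585, 1401, 62, 1403, 1738, 1269, 1726,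
    1009, 397, 587, 1359, 1514, 1352, 868, 1795, 1579, 745, 172, 1472, 563, 958, 1388, 2035,
    464, 981, 1239, 1721, 804, 1897, 66, 1237, 357, 126, 1175, 1456, 734, 1640, 95, 767, 1519,
    33, 763, 1788, 1254, 508, 1031, 538, 1797, 1274, 1540, 253, 1054, 2040, 996, 1068, 723,
    174, 1992, 1791, 360, 1137, 639, 953, 1152, 721, 2006, 1701, 623, 1205, 371, 1226, 651,
    829, 1136, 590, 186, 197]

def parL : List ℕ :=
    [0, 0, 1, 2, 6, 0, 1, 5, 5, 0, 9, 10, 11, 15, 9, 10, 14, 14, 12, 18, 19, 20, 24, 18, 19,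
    23, 23, 21, 27, 30, 36, 34, 27, 35, 29, 30, 37, 38, 39, 3, 43, 44, 44, 38, 39, 4, 45, 46,
    47, 51, 45, 46, 50, 50, 13, 54, 55, 56, 60, 54, 55, 59, 59, 22, 63, 66, 48, 70, 63, 71, 65,
    66, 73, 78, 75, 57, 49, 79, 76, 76, 75, 40, 81, 82, 83, 58, 81, 85, 85, 86]

def peL : List ℕ :=
    [0, 15, 16, 17, 22, 18, 19, 23, 26, 0, 27, 28, 29, 34, 30, 31, 35, 38, 1, 39, 40, 41, 46,
    42, 43, 47, 50, 2, 51, 53, 3, 61, 54, 60, 56, 57, 63, 64, 65, 4, 73, 74, 72, 68, 69, 5, 75,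
    76, 77, 82, 78, 79, 83, 86, 6, 87, 88, 89, 94, 90, 91, 95, 98, 7, 99, 101, 10, 109, 102,
    108, 104, 105, 111, 115, 113, 11, 13, 119, 118, 121, 117, 9, 123, 124, 125, 14, 126, 130,
    133, 134]

def depL : List ℕ :=
    [0, 1, 2, 3, 3, 1, 2, 2, 2, 1, 2, 3, 4, 4, 2, 3, 3, 3, 5, 6, 7, 8, 8, 6, 7, 7, 7, 9, 10, 9,
    8, 11, 10, 10, 10, 9, 7, 6, 5, 4, 7, 6, 6, 6, 5, 4, 5, 6, 7, 7, 5, 6, 6, 6, 5, 6, 7, 8, 8,
    6, 7, 7, 7, 9, 10, 9, 8, 11, 10, 10, 10, 9, 11, 10, 10, 9, 8, 10, 9, 9, 10, 8, 9, 10, 11,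
    9, 9, 10, 10, 10]

def circs : List (List ℕ) :=
  [[0, 30, 38, 33, 1, 42, 50, 45, 2, 54, 62, 57, 3, 66, 74, 69, 4, 21, 26, 18],
    [0, 27, 31, 34, 6, 90, 98, 93, 11, 117, 122, 114, 8, 58, 55, 51, 2, 41, 44, 49, 7, 102,
    110, 105, 10, 81, 86, 78, 5, 22, 19, 15],
    [3, 63, 67, 70, 9, 126, 134, 129, 12, 109, 104, 101, 10, 77, 80, 85, 13, 118, 115, 111, 8,
    61, 56, 53],
    [1, 39, 43, 46, 7, 99, 103, 106, 12, 125, 128, 133, 14, 94, 91, 87, 6, 37, 32, 29],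
    [4, 65, 68, 73, 9, 123, 127, 130, 14, 97, 92, 89, 11, 113, 116, 121, 13, 82, 79, 75, 5, 25,
    20, 17],
    [16, 20, 23, 26, 24, 19],
    [28, 32, 35, 38, 36, 31],
    [40, 44, 47, 50, 48, 43],
    [52, 56, 59, 62, 60, 55],
    [64, 68, 71, 74, 72, 67],
    [76, 80, 83, 86, 84, 79],
    [88, 92, 95, 98, 96, 91],
    [100, 104, 107, 110, 108, 103],
    [112, 116, 119, 122, 120, 115],
    [124, 128, 131, 134, 132, 127]]

theorem ends_ok : ∀ e : Fin 135, e1L.getD e.val 0 < 90 ∧ e2L.getD e.val 0 < 90 ∧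
    e1L.getD e.val 0 ≠ e2L.getD e.val 0 ∧
    ∀ v : Fin 90, I v e ↔ v.val = e1L.getD e.val 0 ∨ v.val = e2L.getD e.val 0 := by
  decide +kernel

theorem tri_ok : ∀ v : Fin 90, tri v.val 0 < 135 ∧ tri v.val 1 < 135 ∧ tri v.val 2 < 135 ∧
    tri v.val 0 ≠ tri v.val 1 ∧ tri v.val 0 ≠ tri v.val 2 ∧ tri v.val 1 ≠ tri v.val 2 := by
  decide +kernel

theorem vec_ok : (∀ v : Fin 90, Nat.xor (Nat.xor (vecL.getD (tri v.val 0) 0)
    (vecL.getD (tri v.val 1) 0)) (vecL.getD (tri v.val 2) 0) = 0) ∧ vecL.Nodup ∧ 0 ∉ vecL ∧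
    vecL.length = 135 := by
  decide +kernel

theorem par_ok : ∀ v : Fin 90, v.val = 0 ∨ (parL.getD v.val 0 < 90 ∧
    depL.getD (parL.getD v.val 0) 0 < depL.getD v.val 0 ∧
    ((e1L.getD (peL.getD v.val 0) 0 = v.val ∧ e2L.getD (peL.getD v.val 0) 0 = parL.getD v.val 0) ∨
     (e2L.getD (peL.getD v.val 0) 0 = v.val ∧ e1L.getD (peL.getD v.val 0) 0 = parL.getD v.val 0)) ∧
    peL.getD v.val 0 < 135) := by
  decide +kernel

/-- the two edges share a vertex -/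
def sh (a b : ℕ) : Prop := e1L.getD a 0 = e1L.getD b 0 ∨ e1L.getD a 0 = e2L.getD b 0 ∨
  e2L.getD a 0 = e1L.getD b 0 ∨ e2L.getD a 0 = e2L.getD b 0

instance (a b : ℕ) : Decidable (sh a b) := by unfold sh; infer_instance

theorem circ_chain : ∀ l ∈ circs, l ≠ [] ∧ l.IsChain sh ∧ l.Nodup ∧ ∀ x ∈ l, x < 135 := by
  decide +kernel

theorem circ_deg : ∀ l ∈ circs, ∀ v : Fin 90,
    ([tri v.val 0, tri v.val 1, tri v.val 2].countP (fun x => l.contains x) = 0 ∨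
     [tri v.val 0, tri v.val 1, tri v.val 2].countP (fun x => l.contains x) = 2) := by
  decide +kernel

theorem circ_cov : ∀ e : Fin 135, ∃ l ∈ circs, e.val ∈ l := by
  decide +kernel

theorem circ_len : (circs.map List.length).sum = 180 := by
  decide +kernel

theorem pieceA : ∀ u : Fin 10, ∀ t ∈ seqA, ∃ i : Fin 9,
    [tri (9 * u.val + i.val) 0, tri (9 * u.val + i.val) 1, tri (9 * u.val + i.val) 2].Perm
      [em u.val t.1, em u.val t.2.1, em u.val t.2.2] := by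
  decide +kernel

theorem em_lt : ∀ u : Fin 10, ∀ j : Fin 15, em u.val j.val < 135 := by
  decide +kernel

theorem seqA_lt : ∀ t ∈ seqA, t.1 < 15 ∧ t.2.1 < 15 ∧ t.2.2 < 15 := by decide

theorem seqB_lt : ∀ t ∈ seqB, t.1 < 15 ∧ t.2.1 < 15 ∧ t.2.2 < 15 := by decide

/-- the label of a place from the places `k0, ..., k3` of the four matchings -/
def fl (k0 k1 k2 k3 k : Fin 3) : ℕ :=
  (if k0 = k then 1 else 0) + (if k1 = k then 2 else 0) + (if k2 = k then 4 else 0) +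
    (if k3 = k then 8 else 0)

theorem tabA : ∀ k0 k1 k2 k3 : Fin 3, fl k0 k1 k2 k3 0 ≠ 0 → fl k0 k1 k2 k3 1 ≠ 0 →
    fl k0 k1 k2 k3 2 ≠ 0 →
    (fl k0 k1 k2 k3 1, fl k0 k1 k2 k3 2) ∈ candsA (fl k0 k1 k2 k3 0) ∧
      fl k0 k1 k2 k3 0 ∈ [1, 2, 3, 4, 5, 6, 8, 9, 10, 12] := by
  decide +kernel

theorem tabB : ∀ a b c : Fin 4, dist3 a.val b.val c.val = true →
    (b.val, c.val) ∈ candsB a.val ∧ (c.val, b.val) ∈ candsB a.val ∧
    (a.val, c.val) ∈ candsB b.val ∧ (c.val, a.val) ∈ candsB b.val ∧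
    (a.val, b.val) ∈ candsB c.val ∧ (b.val, a.val) ∈ candsB c.val ∧
    a.val ∈ [1, 2, 3] ∧ b.val ∈ [1, 2, 3] ∧ c.val ∈ [1, 2, 3] := by
  decide +kernel

theorem col_lt (x : ℕ) : col x < 4 := by
  unfold col; split <;> omega

theorem tabB' (a b c : ℕ) (h : dist3 (col a) (col b) (col c) = true) :
    (col b, col c) ∈ candsB (col a) ∧ (col c, col b) ∈ candsB (col a) ∧
    (col a, col c) ∈ candsB (col b) ∧ (col c, col a) ∈ candsB (col b) ∧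
    (col a, col b) ∈ candsB (col c) ∧ (col b, col a) ∈ candsB (col c) ∧
    col a ∈ [1, 2, 3] ∧ col b ∈ [1, 2, 3] ∧ col c ∈ [1, 2, 3] :=
  tabB ⟨col a, col_lt a⟩ ⟨col b, col_lt b⟩ ⟨col c, col_lt c⟩ h

end Pool.Agent.V11120.PMx
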