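import Mathlib

set_option autoImplicit false

/-!
Loopless multigraphs by their incidence relation, expansions of vertices into triangles, covers by
four perfect matchings, shortest cycle covers.
-/

namespace Pool.Agent.V11120.PMx

section
variable {V E : Type}

/-- `J` is the incidence relation of a loopless graph with vertex set `V` and edge set `E`:
every edge is incident with exactly two vertices (parallel edges are allowed). -/
def IsGraph (J : V → E → Prop) : Prop := ∀ e, {v | J v e}.ncard = 2

/-- Every vertex is incident with exactly three edges. -/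
def Cubic (J : V → E → Prop) : Prop := ∀ v, {e | J v e}.ncard = 3

/-- After deleting any at most two edges the graph is connected. -/
def ThreeEdgeConnected (J : V → E → Prop) : Prop :=
  ∀ F : Set E, F.ncard ≤ 2 → ∀ u v : V,
    Relation.ReflTransGen (fun a b => ∃ e, e ∉ F ∧ J a e ∧ J b e) u v

/-- `C` is the edge set of a cycle, a connected 2-regular subgraph: it is nonempty, every vertex is
incident with 0 or 2 edges of `C`, and any two edges of `C` are joined by a chain of edges of `C`
in which consecutive edges share a vertex. -/
def IsCycle (J : V → E → Prop) (C : Set E) : Prop :=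
  C.Nonempty ∧ (∀ v, {e | e ∈ C ∧ J v e}.ncard = 0 ∨ {e | e ∈ C ∧ J v e}.ncard = 2) ∧
    ∀ e ∈ C, ∀ f ∈ C, Relation.ReflTransGen (fun a b => b ∈ C ∧ ∃ v, J v a ∧ J v b) e f

/-- A cycle cover: a finite family of cycles whose union contains every edge. -/
def IsCycleCover (J : V → E → Prop) (F : List (Set E)) : Prop :=
  (∀ C ∈ F, IsCycle J C) ∧ ∀ e, ∃ C ∈ F, e ∈ C

/-- The length of a family of cycles: the sum of the numbers of edges of its members. -/
noncomputable def len (F : List (Set E)) : ℕ := (F.map Set.ncard).sum

/-- The minimum length of a cycle cover. -/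
noncomputable def scc (J : V → E → Prop) : ℕ := sInf {n | ∃ F, IsCycleCover J F ∧ len F = n}

/-- `M` is a perfect matching: every vertex is incident with exactly one edge of `M`. -/
def IsPerfectMatching (J : V → E → Prop) (M : Set E) : Prop := ∀ v, ∃! e, e ∈ M ∧ J v e

/-- The edge set is the union of four (not necessarily distinct) perfect matchings. -/
def FourCoverable (J : V → E → Prop) : Prop :=
  ∃ M : Fin 4 → Set E, (∀ i, IsPerfectMatching J (M i)) ∧ ∀ e, ∃ i, e ∈ M i

/-- The vertices of the expansion `G_U` of the vertices in `U` into triangles: the vertices outside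
`U`, and for every `v ∈ U` and every edge `e` at `v` a vertex `(v, e)`. -/
abbrev ExpV (J : V → E → Prop) (U : Set V) : Type :=
  {v : V // v ∉ U} ⊕ {p : V × E // p.1 ∈ U ∧ J p.1 p.2}

/-- The edges of `G_U`: the old edges, and for every `v ∈ U` and every edge `e` at `v` the edge of
the triangle of `v` that is opposite to the vertex `(v, e)`. -/
abbrev ExpE (J : V → E → Prop) (U : Set V) : Type :=
  E ⊕ {p : V × E // p.1 ∈ U ∧ J p.1 p.2}

/-- The incidence relation of `G_U`: the old edge `e` is attached to the vertex `(v, e)` in place
of `v`; the new edge opposite to `(v, e)` is incident with the other vertices `(v, f)`. -/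
def expand (J : V → E → Prop) (U : Set V) : ExpV J U → ExpE J U → Prop
  | .inl v, .inl e => J v.1 e
  | .inl _, .inr _ => False
  | .inr p, .inl e => p.1.2 = e
  | .inr p, .inr q => p.1.1 = q.1.1 ∧ p.1.2 ≠ q.1.2

/-- `T(G)`: the minimum size of a set `U` such that `G_U` is the union of four perfect matchings,
`⊤` if there is none. -/
noncomputable def T (J : V → E → Prop) : ℕ∞ :=
  ⨅ U : {U : Set V // FourCoverable (expand J U)}, U.1.encard

theorem coverable_of_empty (J : V → E → Prop) (h : FourCoverable (expand J ∅)) :
    FourCoverable J := by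
  obtain ⟨M, h1, h2⟩ := h
  refine ⟨fun i => {e | (Sum.inl e : ExpE J ∅) ∈ M i}, fun i v => ?_, fun e => h2 (Sum.inl e)⟩
  obtain ⟨e, ⟨he1, he2⟩, he3⟩ := h1 i (Sum.inl ⟨v, by simp⟩)
  rcases e with e | q
  · refine ⟨e, ⟨he1, he2⟩, ?_⟩
    rintro f ⟨hf1, hf2⟩
    have := he3 (Sum.inl f) ⟨hf1, hf2⟩
    exact Sum.inl.inj this
  · exact absurd q.2.1 (by simp)

theorem one_le_T (J : V → E → Prop) (h : ¬ FourCoverable J) : 1 ≤ T J := by
  unfold T
  refine le_iInf fun U => ?_
  rw [Set.one_le_encard_iff_nonempty, Set.nonempty_iff_ne_empty]
  intro h0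
  apply h
  apply coverable_of_empty
  have := U.2
  rwa [h0] at this

end

end Pool.Agent.V11120.PMx
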