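import Mathlib
import Pool.Agent.V11120.PMb
import Pool.Agent.V11120.PMdefs

set_option autoImplicit false

namespace Pool.Agent.V11120.PMx

open Finset

/-! ### The graph `I` -/

def E1 (e : Fin 135) : Fin 90 := ⟨e1L.getD e.val 0, (ends_ok e).1⟩
def E2 (e : Fin 135) : Fin 90 := ⟨e2L.getD e.val 0, (ends_ok e).2.1⟩

theorem E_ne (e : Fin 135) : E1 e ≠ E2 e := fun h => (ends_ok e).2.2.1 (congrArg Fin.val h)

theorem I_iff (v : Fin 90) (e : Fin 135) : I v e ↔ v = E1 e ∨ v = E2 e := by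
  rw [(ends_ok e).2.2.2 v, Fin.ext_iff, Fin.ext_iff]; rfl

def t0 (v : Fin 90) : Fin 135 := ⟨tri v.val 0, (tri_ok v).1⟩
def t1 (v : Fin 90) : Fin 135 := ⟨tri v.val 1, (tri_ok v).2.1⟩
def t2 (v : Fin 90) : Fin 135 := ⟨tri v.val 2, (tri_ok v).2.2.1⟩

theorem I_iff' (v : Fin 90) (e : Fin 135) : I v e ↔ e = t0 v ∨ e = t1 v ∨ e = t2 v := by
  unfold I t0 t1 t2
  rw [Fin.ext_iff, Fin.ext_iff, Fin.ext_iff]
  simp only [eq_comm]

theorem t01 (v : Fin 90) : t0 v ≠ t1 v := fun h => (tri_ok v).2.2.2.1 (congrArg Fin.val h)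
theorem t02 (v : Fin 90) : t0 v ≠ t2 v := fun h => (tri_ok v).2.2.2.2.1 (congrArg Fin.val h)
theorem t12 (v : Fin 90) : t1 v ≠ t2 v := fun h => (tri_ok v).2.2.2.2.2 (congrArg Fin.val h)

theorem isGraph : IsGraph I := by
  intro e
  have h : {v | I v e} = {E1 e, E2 e} := by
    ext v; rw [Set.mem_setOf_eq, I_iff]; simp
  rw [h, Set.ncard_pair (E_ne e)]

theorem cubic : Cubic I := by
  intro v
  have h : {e | I v e} = (({t0 v, t1 v, t2 v} : Finset (Fin 135)) : Set (Fin 135)) := by
    ext e; rw [Set.mem_setOf_eq, I_iff']; simp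
  rw [h, Set.ncard_coe_finset, Finset.card_eq_three]
  exact ⟨_, _, _, t01 v, t02 v, t12 v, rfl⟩

/-! ### Three-edge-connectivity -/

def cc (i : ℕ) (e : Fin 135) : ZMod 2 := if (vecL.getD e.val 0).testBit i then 1 else 0

theorem cc_vertex (i : ℕ) (v : Fin 90) : cc i (t0 v) + cc i (t1 v) + cc i (t2 v) = 0 := by
  have h := congrArg (fun n : ℕ => n.testBit i) (vec_ok.1 v)
  simp only [Nat.zero_testBit] at h
  have h' : Bool.xor (Bool.xor ((vecL.getD (tri v.val 0) 0).testBit i)
      ((vecL.getD (tri v.val 1) 0).testBit i)) ((vecL.getD (tri v.val 2) 0).testBit i) = false := by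
    rw [← h]
    change _ = ((_ ^^^ _) ^^^ _ : ℕ).testBit i
    rw [Nat.testBit_xor, Nat.testBit_xor]
  unfold cc t0 t1 t2
  dsimp only
  revert h'
  generalize (vecL.getD (tri v.val 0) 0).testBit i = a
  generalize (vecL.getD (tri v.val 1) 0).testBit i = b
  generalize (vecL.getD (tri v.val 2) 0).testBit i = c
  revert a b c
  decide

theorem sum_vertex (i : ℕ) (v : Fin 90) : ∑ e, (if I v e then cc i e else 0) = 0 := by
  rw [← Finset.sum_filter]
  have h : (univ.filter fun e => I v e) = {t0 v, t1 v, t2 v} := by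
    ext e; rw [mem_filter, I_iff']; simp
  rw [h, Finset.sum_insert (by simp [t01 v, t02 v]), Finset.sum_pair (t12 v), ← add_assoc]
  exact cc_vertex i v

open Classical in
theorem sum_cut (S : Set (Fin 90)) (i : ℕ) :
    ∑ e ∈ univ.filter (fun e => ¬ (E1 e ∈ S ↔ E2 e ∈ S)), cc i e = 0 := by
  have h1 : ∑ v : Fin 90, (if v ∈ S then (1 : ZMod 2) else 0) *
      ∑ e, (if I v e then cc i e else 0) = 0 := by
    apply Finset.sum_eq_zero
    intro v _
    rw [sum_vertex, mul_zero]
  rw [← h1, Finset.sum_filter]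
  simp_rw [Finset.mul_sum]
  rw [Finset.sum_comm]
  apply Finset.sum_congr rfl
  intro e _
  have h2 : ∀ v : Fin 90, (if v ∈ S then (1 : ZMod 2) else 0) * (if I v e then cc i e else 0) =
      if v = E1 e ∨ v = E2 e then (if v ∈ S then cc i e else 0) else 0 := by
    intro v
    by_cases h3 : I v e
    · rw [if_pos h3, if_pos ((I_iff v e).1 h3)]
      split_ifs <;> simp
    · rw [if_neg h3, if_neg (fun h => h3 ((I_iff v e).2 h)), mul_zero]
  rw [Finset.sum_congr rfl (fun v _ => h2 v), ← Finset.sum_filter]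
  have h4 : (univ.filter fun v => v = E1 e ∨ v = E2 e) = {E1 e, E2 e} := by
    ext v; simp
  rw [h4, Finset.sum_pair (E_ne e)]
  have h5 : ∀ x : ZMod 2, x + x = 0 := by decide
  by_cases ha : E1 e ∈ S <;> by_cases hb : E2 e ∈ S <;> simp [ha, hb, h5]

theorem vec_inj (e f : Fin 135) (h : ∀ i, cc i e = cc i f) : e = f := by
  have h1 : vecL.getD e.val 0 = vecL.getD f.val 0 := by
    apply Nat.eq_of_testBit_eq
    intro i
    have := h i
    unfold cc at this
    by_cases h2 : (vecL.getD e.val 0).testBit i = true <;>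
      by_cases h3 : (vecL.getD f.val 0).testBit i = true <;> simp_all
  have hl := vec_ok.2.2.2
  have he : e.val < vecL.length := by rw [hl]; exact e.2
  have hf : f.val < vecL.length := by rw [hl]; exact f.2
  rw [List.getD_eq_getElem _ _ he, List.getD_eq_getElem _ _ hf] at h1
  exact Fin.ext ((vec_ok.2.1.getElem_inj_iff).1 h1)

theorem vec_ne (e : Fin 135) : ∃ i, cc i e ≠ 0 := by
  by_contra hcon
  push Not at hcon
  have h1 : vecL.getD e.val 0 = 0 := by
    apply Nat.eq_of_testBit_eq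
    intro i
    rw [Nat.zero_testBit]
    have := hcon i
    unfold cc at this
    by_contra h2
    rw [Bool.not_eq_false] at h2
    rw [if_pos h2] at this
    exact absurd this (by decide)
  have hl := vec_ok.2.2.2
  have he : e.val < vecL.length := by rw [hl]; exact e.2
  rw [List.getD_eq_getElem _ _ he] at h1
  exact vec_ok.2.2.1 (h1 ▸ List.getElem_mem he)

/-- a set of vertices that no edge leaves is trivial -/
theorem conn (S : Set (Fin 90)) (h : ∀ e, E1 e ∈ S ↔ E2 e ∈ S) (v : Fin 90) :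
    v ∈ S ↔ (⟨0, by norm_num⟩ : Fin 90) ∈ S := by
  induction hd : depL.getD v.val 0 using Nat.strong_induction_on generalizing v with
  | _ d ih =>
    rcases par_ok v with h0 | ⟨h1, h2, h3, h4⟩
    · have : v = ⟨0, by norm_num⟩ := Fin.ext h0
      rw [this]
    · have h5 := ih _ (hd ▸ h2) ⟨parL.getD v.val 0, h1⟩ rfl
      rw [← h5]
      have h6 := h ⟨peL.getD v.val 0, h4⟩
      rcases h3 with ⟨h7, h8⟩ | ⟨h7, h8⟩
      · have e1 : E1 ⟨peL.getD v.val 0, h4⟩ = v := Fin.ext h7
        have e2 : E2 ⟨peL.getD v.val 0, h4⟩ = ⟨parL.getD v.val 0, h1⟩ := Fin.ext h8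
        rw [e1, e2] at h6
        exact h6
      · have e1 : E2 ⟨peL.getD v.val 0, h4⟩ = v := Fin.ext h7
        have e2 : E1 ⟨peL.getD v.val 0, h4⟩ = ⟨parL.getD v.val 0, h1⟩ := Fin.ext h8
        rw [e1, e2] at h6
        exact h6.symm

open Classical in
theorem threeConn : ThreeEdgeConnected I := by
  intro F hF u v
  by_contra hcon
  set S : Set (Fin 90) := {x | Relation.ReflTransGen (fun a b => ∃ e, e ∉ F ∧ I a e ∧ I b e) u x}
    with hS
  have huS : u ∈ S := Relation.ReflTransGen.refl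
  have hvS : v ∉ S := hcon
  set D := univ.filter (fun e => ¬ (E1 e ∈ S ↔ E2 e ∈ S)) with hD
  have hDF : (D : Set (Fin 135)) ⊆ F := by
    intro e he
    have he' : ¬ (E1 e ∈ S ↔ E2 e ∈ S) := (Finset.mem_filter.1 (Finset.mem_coe.1 he)).2
    by_contra heF
    apply he'
    constructor
    · intro h
      exact Relation.ReflTransGen.tail h ⟨e, heF, (I_iff _ _).2 (Or.inl rfl),
        (I_iff _ _).2 (Or.inr rfl)⟩
    · intro h
      exact Relation.ReflTransGen.tail h ⟨e, heF, (I_iff _ _).2 (Or.inr rfl),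
        (I_iff _ _).2 (Or.inl rfl)⟩
  have hcard : D.card ≤ 2 := by
    rw [← Set.ncard_coe_finset]
    exact (Set.ncard_le_ncard hDF (Set.toFinite F)).trans hF
  have hne : D.card ≠ 0 := by
    intro h0
    rw [Finset.card_eq_zero, hD, Finset.filter_eq_empty_iff] at h0
    have h1 : ∀ e, E1 e ∈ S ↔ E2 e ∈ S := fun e => not_not.1 (h0 (Finset.mem_univ e))
    exact hvS ((conn S h1 v).2 ((conn S h1 u).1 huS))
  have hsum : ∀ i, ∑ e ∈ D, cc i e = 0 := fun i => sum_cut S i
  have h12 : D.card = 1 ∨ D.card = 2 := by omega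
  rcases h12 with h1 | h2
  · obtain ⟨e, he⟩ := Finset.card_eq_one.1 h1
    obtain ⟨i, hi⟩ := vec_ne e
    have := hsum i
    rw [he, Finset.sum_singleton] at this
    exact hi this
  · obtain ⟨e, f, hef, he⟩ := Finset.card_eq_two.1 h2
    apply hef
    apply vec_inj
    intro i
    have := hsum i
    rw [he, Finset.sum_pair hef] at this
    have h5 : ∀ x y : ZMod 2, x + y = 0 → x = y := by decide
    exact h5 _ _ this

end Pool.Agent.V11120.PMx
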