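import Mathlib
import Pool.Agent.V11120.PMc

set_option autoImplicit false

namespace Pool.Agent.V11120.PMx

open Finset

/-! ### The cycle cover -/

def Cs (l : List ℕ) : Set (Fin 135) := {e | e.val ∈ l}

theorem sh_symm {a b : ℕ} (h : sh a b) : sh b a := by
  unfold sh at h ⊢
  rcases h with h | h | h | h
  · exact Or.inl h.symm
  · exact Or.inr (Or.inr (Or.inl h.symm))
  · exact Or.inr (Or.inl h.symm)
  · exact Or.inr (Or.inr (Or.inr h.symm))

theorem chain_conn (Q : ℕ → Prop) (l : List ℕ) (hc : l.IsChain sh) (hQ : ∀ x ∈ l, Q x) :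
    ∀ x ∈ l, ∀ y ∈ l, Relation.ReflTransGen (fun a b => Q b ∧ sh a b) x y := by
  induction l with
  | nil => intro x hx; simp at hx
  | cons a l ih =>
    cases l with
    | nil =>
      intro x hx y hy
      simp only [List.mem_singleton] at hx hy
      rw [hx, hy]
    | cons b l =>
      rw [List.isChain_cons_cons] at hc
      have ih' := ih hc.2 (fun x hx => hQ x (List.mem_cons_of_mem _ hx))
      have hb : b ∈ b :: l := by simp
      intro x hx y hy
      rcases List.mem_cons.1 hx with rfl | hx' <;> rcases List.mem_cons.1 hy with rfl | hy'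
      · exact Relation.ReflTransGen.refl
      · exact Relation.ReflTransGen.head ⟨hQ b (by simp), hc.1⟩ (ih' b hb y hy')
      · exact Relation.ReflTransGen.tail (ih' x hx' b hb) ⟨hQ y (by simp), sh_symm hc.1⟩
      · exact ih' x hx' y hy'

theorem sh_vertex {a b : ℕ} (ha : a < 135) (hb : b < 135) (h : sh a b) :
    ∃ v, I v ⟨a, ha⟩ ∧ I v ⟨b, hb⟩ := by
  unfold sh at h
  rcases h with h | h | h | h
  · exact ⟨E1 ⟨a, ha⟩, (I_iff _ _).2 (Or.inl rfl), (I_iff _ _).2 (Or.inl (Fin.ext h))⟩
  · exact ⟨E1 ⟨a, ha⟩, (I_iff _ _).2 (Or.inl rfl), (I_iff _ _).2 (Or.inr (Fin.ext h))⟩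
  · exact ⟨E2 ⟨a, ha⟩, (I_iff _ _).2 (Or.inr rfl), (I_iff _ _).2 (Or.inl (Fin.ext h))⟩
  · exact ⟨E2 ⟨a, ha⟩, (I_iff _ _).2 (Or.inr rfl), (I_iff _ _).2 (Or.inr (Fin.ext h))⟩

theorem card_at (l : List ℕ) (v : Fin 90) :
    {e | e ∈ Cs l ∧ I v e}.ncard =
      [tri v.val 0, tri v.val 1, tri v.val 2].countP (fun x => l.contains x) := by
  have h : {e | e ∈ Cs l ∧ I v e} =
      ((({t0 v, t1 v, t2 v} : Finset (Fin 135)).filter (fun e => e.val ∈ l) :
        Finset (Fin 135)) : Set (Fin 135)) := by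
    ext e
    rw [Set.mem_ofPred_eq, I_iff', Finset.mem_coe, Finset.mem_filter]
    simp only [Cs, Set.mem_ofPred_eq, Finset.mem_insert, Finset.mem_singleton]
    tauto
  rw [h, Set.ncard_coe_finset, Finset.card_filter,
    Finset.sum_insert (by simp [t01 v, t02 v]), Finset.sum_pair (t12 v)]
  simp only [List.countP_cons, List.countP_nil, t0, t1, t2, List.contains_iff_mem]
  by_cases h0 : tri v.val 0 ∈ l <;> by_cases h1 : tri v.val 1 ∈ l <;>
    by_cases h2 : tri v.val 2 ∈ l <;> simp [h0, h1, h2]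

theorem isCycle (l : List ℕ) (hl : l ∈ circs) : IsCycle I (Cs l) := by
  obtain ⟨h1, h2, h3, h4⟩ := circ_chain l hl
  refine ⟨?_, ?_, ?_⟩
  · obtain ⟨x, hx⟩ := List.exists_mem_of_ne_nil l h1
    exact ⟨⟨x, h4 x hx⟩, hx⟩
  · intro v
    rw [card_at]
    exact circ_deg l hl v
  · intro e he f hf
    have h5 := chain_conn (fun x => x ∈ l) l h2 (fun x hx => hx) e.val he f.val hf
    have h6 : ∀ y, Relation.ReflTransGen (fun a b => b ∈ l ∧ sh a b) e.val y →
        ∃ hy : y < 135, Relation.ReflTransGen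
          (fun a b : Fin 135 => b ∈ Cs l ∧ ∃ v, I v a ∧ I v b) e ⟨y, hy⟩ := by
      intro y hy
      induction hy with
      | refl => exact ⟨e.2, Relation.ReflTransGen.refl⟩
      | tail _ h8 ih =>
        obtain ⟨hb, h9⟩ := ih
        exact ⟨h4 _ h8.1, h9.tail ⟨h8.1, sh_vertex hb (h4 _ h8.1) h8.2⟩⟩
    obtain ⟨_, h7⟩ := h6 _ h5
    exact h7

theorem ncard_Cs (l : List ℕ) (hl : l ∈ circs) : (Cs l).ncard = l.length := by
  obtain ⟨h1, h2, h3, h4⟩ := circ_chain l hl
  rw [← Set.ncard_image_of_injective (Cs l) Fin.val_injective]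
  have h5 : Fin.val '' Cs l = ((l.toFinset : Finset ℕ) : Set ℕ) := by
    ext x
    rw [Set.mem_image, Finset.mem_coe, List.mem_toFinset]
    constructor
    · rintro ⟨e, he, rfl⟩; exact he
    · intro hx; exact ⟨⟨x, h4 x hx⟩, hx, rfl⟩
  rw [h5, Set.ncard_coe_finset, List.toFinset_card_of_nodup h3]

theorem scc_le : scc I ≤ 180 := by
  apply Nat.sInf_le
  refine ⟨circs.map Cs, ⟨?_, ?_⟩, ?_⟩
  · intro C hC
    obtain ⟨l, hl, rfl⟩ := List.mem_map.1 hC
    exact isCycle l hl
  · intro e
    obtain ⟨l, hl, he⟩ := circ_cov e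
    exact ⟨Cs l, List.mem_map.2 ⟨l, hl, rfl⟩, he⟩
  · unfold len
    rw [List.map_map, ← circ_len]
    congr 1
    apply List.map_congr_left
    intro l hl
    exact ncard_Cs l hl

/-! ### No cover by four perfect matchings -/

open Classical in
theorem notCov : ¬ FourCoverable I := by
  rintro ⟨M, hM, hcov⟩
  let P : Fin 4 → ℕ → Prop := fun i x => ∃ h : x < 135, (⟨x, h⟩ : Fin 135) ∈ M i
  let lab : ℕ → ℕ := fun x => (if P 0 x then 1 else 0) + (if P 1 x then 2 else 0) +
    (if P 2 x then 4 else 0) + (if P 3 x then 8 else 0)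
  have key : ∀ (v : Fin 90) (x y z : ℕ),
      [tri v.val 0, tri v.val 1, tri v.val 2].Perm [x, y, z] →
      (lab y, lab z) ∈ candsA (lab x) ∧ lab x ∈ [1, 2, 3, 4, 5, 6, 8, 9, 10, 12] := by
    intro v x y z hp
    obtain ⟨a1, a2, a3, a4, a5, a6⟩ := tri_ok v
    have hnd : [x, y, z].Nodup := hp.nodup_iff.1 (by simp [a4, a5, a6])
    simp only [List.nodup_cons, List.mem_cons, List.not_mem_nil, or_false, not_or,
      List.nodup_nil, and_true, not_false_eq_true] at hnd
    obtain ⟨⟨hxy, hxz⟩, hyz⟩ := hnd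
    have hmem : ∀ w, w ∈ [x, y, z] → w < 135 ∧ (w = tri v.val 0 ∨ w = tri v.val 1 ∨
        w = tri v.val 2) := by
      intro w hw
      have := (hp.mem_iff).2 hw
      simp only [List.mem_cons, List.not_mem_nil, or_false] at this
      rcases this with rfl | rfl | rfl
      · exact ⟨a1, by simp⟩
      · exact ⟨a2, by simp⟩
      · exact ⟨a3, by simp⟩
    have hI : ∀ w (hw : w ∈ [x, y, z]), I v ⟨w, (hmem w hw).1⟩ := by
      intro w hw
      rcases (hmem w hw).2 with h | h | h
      · exact Or.inl h.symm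
      · exact Or.inr (Or.inl h.symm)
      · exact Or.inr (Or.inr h.symm)
    have hx3 : x ∈ [x, y, z] := by simp
    have hy3 : y ∈ [x, y, z] := by simp
    have hz3 : z ∈ [x, y, z] := by simp
    have hk : ∀ i : Fin 4, ∃ k : Fin 3, (P i x ↔ k = 0) ∧ (P i y ↔ k = 1) ∧ (P i z ↔ k = 2) := by
      intro i
      obtain ⟨e, ⟨he1, he2⟩, he3⟩ := hM i v
      have huniq : ∀ w (hw : w ∈ [x, y, z]), P i w → w = e.val := by
        rintro w hw ⟨h1, h2⟩
        have := he3 ⟨w, h1⟩ ⟨h2, hI w hw⟩
        exact congrArg Fin.val this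
      have he : e.val ∈ [x, y, z] := by
        rw [← hp.mem_iff]
        simp only [List.mem_cons, List.not_mem_nil, or_false]
        rcases he2 with h | h | h
        · exact Or.inl h.symm
        · exact Or.inr (Or.inl h.symm)
        · exact Or.inr (Or.inr h.symm)
      have hPe : P i e.val := ⟨e.2, he1⟩
      simp only [List.mem_cons, List.not_mem_nil, or_false] at he
      rcases he with h | h | h
      · refine ⟨0, ⟨fun _ => rfl, fun _ => h ▸ hPe⟩, ⟨fun hy => ?_, fun h0 => ?_⟩,
          ⟨fun hz => ?_, fun h0 => ?_⟩⟩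
        · exact absurd (h.symm.trans (huniq y hy3 hy).symm) hxy
        · exact absurd h0 (by decide)
        · exact absurd (h.symm.trans (huniq z hz3 hz).symm) hxz
        · exact absurd h0 (by decide)
      · refine ⟨1, ⟨fun hx => ?_, fun h0 => ?_⟩, ⟨fun _ => rfl, fun _ => h ▸ hPe⟩,
          ⟨fun hz => ?_, fun h0 => ?_⟩⟩
        · exact absurd ((huniq x hx3 hx).trans h) hxy
        · exact absurd h0 (by decide)
        · exact absurd (h.symm.trans (huniq z hz3 hz).symm) hyz
        · exact absurd h0 (by decide)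
      · refine ⟨2, ⟨fun hx => ?_, fun h0 => ?_⟩, ⟨fun hy => ?_, fun h0 => ?_⟩,
          ⟨fun _ => rfl, fun _ => h ▸ hPe⟩⟩
        · exact absurd ((huniq x hx3 hx).trans h) hxz
        · exact absurd h0 (by decide)
        · exact absurd ((huniq y hy3 hy).trans h) hyz
        · exact absurd h0 (by decide)
    choose k hk0 hk1 hk2 using hk
    have hne : ∀ w (hw : w ∈ [x, y, z]), lab w ≠ 0 := by
      intro w hw
      obtain ⟨i, hi⟩ := hcov ⟨w, (hmem w hw).1⟩
      have hP : P i w := ⟨(hmem w hw).1, hi⟩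
      intro h0
      simp only [lab] at h0
      have hi4 : ∀ i : Fin 4, i = 0 ∨ i = 1 ∨ i = 2 ∨ i = 3 := by decide
      rcases hi4 i with rfl | rfl | rfl | rfl
      · rw [if_pos hP] at h0; omega
      · rw [if_pos hP] at h0; omega
      · rw [if_pos hP] at h0; omega
      · rw [if_pos hP] at h0; omega
    have ex : lab x = fl (k 0) (k 1) (k 2) (k 3) 0 := by
      simp only [lab, fl, hk0]
    have ey : lab y = fl (k 0) (k 1) (k 2) (k 3) 1 := by
      simp only [lab, fl, hk1]
    have ez : lab z = fl (k 0) (k 1) (k 2) (k 3) 2 := by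
      simp only [lab, fl, hk2]
    have := tabA (k 0) (k 1) (k 2) (k 3) (ex ▸ hne x hx3) (ey ▸ hne y hy3) (ez ▸ hne z hz3)
    rw [← ex, ← ey, ← ez] at this
    exact this
  -- the ports of a piece
  have hA : ∀ u : Fin 10, dist3 (col (lab (em u.val 0))) (col (lab (em u.val 4)))
      (col (lab (em u.val 5))) = true := by
    intro u
    have hk : ∀ t ∈ seqA, (lab (em u.val t.2.1), lab (em u.val t.2.2)) ∈
        candsA (lab (em u.val t.1)) ∧ lab (em u.val t.1) ∈ [1, 2, 3, 4, 5, 6, 8, 9, 10, 12] := by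
      intro t ht
      obtain ⟨i, hi⟩ := pieceA u t ht
      exact key ⟨9 * u.val + i.val, by omega⟩ _ _ _ hi
    by_contra hcon
    rw [Bool.not_eq_true] at hcon
    have hstart := (hk (1, 2, 7) (by decide)).2
    have hgo := go_sound candsA leafA (fun j => lab (em u.val j)) (by
      intro st hst
      unfold leafA
      rcases hst 0 with h0 | h0
      · rw [h0]; simp
      rcases hst 4 with h4 | h4
      · rw [h4]; simp
      rcases hst 5 with h5 | h5
      · rw [h5]; simp
      rw [h0, h4, h5, hcon]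
      simp) seqA (fun t ht => (hk t ht).1)
      (fun j => bif Nat.beq j 1 then lab (em u.val 1) else 0) (by
        intro j
        by_cases hj : j = 1
        · right; subst hj; rfl
        · left
          have : Nat.beq j 1 = false := by
            rw [Bool.eq_false_iff]; intro hh; exact hj (Nat.eq_of_beq_eq_true hh)
          rw [this, cond_false])
    have hrun := runA
    rw [List.any_eq_false] at hrun
    exact hrun _ hstart hgo
  have hT : ∀ u : Fin 10, em u.val 0 = tP u.val 0 ∧ em u.val 4 = tP u.val 1 ∧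
      em u.val 5 = tP u.val 2 := by decide
  have hB : ∀ u : Fin 10, dist3 (col (lab (tP u.val 0))) (col (lab (tP u.val 1)))
      (col (lab (tP u.val 2))) = true := by
    intro u
    have := hA u
    rw [(hT u).1, (hT u).2.1, (hT u).2.2] at this
    exact this
  have b0 := tabB' _ _ _ (hB 0)
  have b1 := tabB' _ _ _ (hB 1)
  have b2 := tabB' _ _ _ (hB 2)
  have b3 := tabB' _ _ _ (hB 3)
  have b4 := tabB' _ _ _ (hB 4)
  have b5 := tabB' _ _ _ (hB 5)
  have b6 := tabB' _ _ _ (hB 6)
  have b7 := tabB' _ _ _ (hB 7)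
  have b8 := tabB' _ _ _ (hB 8)
  have b9 := tabB' _ _ _ (hB 9)
  have hgo := go_sound candsB (fun _ => true) (fun j => col (lab j)) (fun _ _ => rfl) seqB (by
    intro t ht
    simp only [seqB, List.mem_cons, List.not_mem_nil, or_false] at ht
    rcases ht with rfl | rfl | rfl | rfl | rfl | rfl | rfl | rfl | rfl | rfl
    · exact b7.1
    · exact b2.2.2.2.2.1
    · exact b1.2.2.1
    · exact b5.2.2.1
    · exact b0.2.1
    · exact b8.2.2.2.2.1
    · exact b6.1
    · exact b3.2.1
    · exact b9.2.2.2.1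
    · exact b4.1)
    (fun j => bif Nat.beq j 7 then col (lab 7) else 0) (by
        intro j
        by_cases hj : j = 7
        · right; subst hj; rfl
        · left
          have : Nat.beq j 7 = false := by
            rw [Bool.eq_false_iff]; intro hh; exact hj (Nat.eq_of_beq_eq_true hh)
          rw [this, cond_false])
  have hrun := runB
  rw [List.any_eq_false] at hrun
  exact hrun _ b7.2.2.2.2.2.2.1 hgo

end Pool.Agent.V11120.PMx
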